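import Mathlib

set_option autoImplicit false

namespace Pool.Agent.Lib.MP_17c3bf_an

open Filter Topology Metric Set

/-- Ekeland's principle for continuous functions bounded below. -/
theorem ekeland {X : Type*} [PseudoMetricSpace X] [CompleteSpace X] (f : X → ℝ)
    (hf : Continuous f) {b : ℝ} (hb' : ∀ x, b ≤ f x) {c : ℝ} (hc : 0 < c) (y : X) :
    ∃ m, f m + c * dist y m ≤ f y ∧ ∀ x, f x + c * dist m x ≤ f m → dist m x = 0 := by
  have hstep : ∀ (n : ℕ) (x : X), ∃ z, f z + c * dist x z ≤ f x ∧
      ∀ w, f w + c * dist x w ≤ f x → f z ≤ f w + (1/2 : ℝ)^n := by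
    intro n x
    set S : Set ℝ := {t | ∃ z, f z + c * dist x z ≤ f x ∧ f z = t} with hS
    have hSne : S.Nonempty := ⟨f x, x, by simp, rfl⟩
    have hSb : BddBelow S := ⟨b, by rintro t ⟨z, -, rfl⟩; exact hb' z⟩
    obtain ⟨t, ⟨z, hz, rfl⟩, ht⟩ := exists_lt_of_csInf_lt hSne
      (show sInf S < sInf S + (1/2:ℝ)^n by
        have : (0:ℝ) < (1/2)^n := by positivity
        linarith)
    refine ⟨z, hz, fun w hw => ?_⟩
    have := csInf_le hSb ⟨w, hw, rfl⟩
    linarith
  choose g hg1 hg2 using hstep
  let x : ℕ → X := fun n => Nat.rec y (fun n x => g n x) n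
  have hx0 : x 0 = y := rfl
  have hxs : ∀ n, x (n+1) = g n (x n) := fun n => rfl
  have htrans : ∀ a b d, f b + c * dist a b ≤ f a → f d + c * dist b d ≤ f b →
      f d + c * dist a d ≤ f a := by
    intro a b d h1 h2
    have := mul_le_mul_of_nonneg_left (dist_triangle a b d) hc.le
    linarith
  have hmono : ∀ n k, f (x (n+k)) + c * dist (x n) (x (n+k)) ≤ f (x n) := by
    intro n k
    induction k with
    | zero => simp
    | succ k ih =>
      refine htrans _ (x (n+k)) _ ih ?_
      have := hg1 (n+k) (x (n+k))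
      exact this
  have hanti : Antitone (fun n => f (x n)) := by
    refine antitone_nat_of_succ_le fun n => ?_
    have h1 := hmono n 1
    have h2 := mul_nonneg hc.le (dist_nonneg (x := x n) (y := x (n+1)))
    linarith
  have hbdd : BddBelow (Set.range fun n => f (x n)) := ⟨b, by rintro t ⟨n, rfl⟩; exact hb' _⟩
  set L := ⨅ n, f (x n) with hL
  have hLt : Tendsto (fun n => f (x n)) atTop (𝓝 L) := tendsto_atTop_ciInf hanti hbdd
  have hLle : ∀ n, L ≤ f (x n) := fun n => ciInf_le hbdd n
  have hcau : CauchySeq x := by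
    refine cauchySeq_of_le_tendsto_0 (fun N => 2 * (f (x N) - L) / c) ?_ ?_
    · intro n m N hn hm
      obtain ⟨k, rfl⟩ := Nat.exists_eq_add_of_le hn
      obtain ⟨l, rfl⟩ := Nat.exists_eq_add_of_le hm
      have h1 := hmono N k
      have h2 := hmono N l
      have h3 := hLle (N+k)
      have h4 := hLle (N+l)
      have h5 := mul_le_mul_of_nonneg_left (dist_triangle_left (x (N+k)) (x (N+l)) (x N)) hc.le
      rw [le_div_iff₀ hc]
      linarith
    · have : Tendsto (fun N => 2 * (f (x N) - L) / c) atTop (𝓝 (2 * (L - L) / c)) :=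
        ((hLt.sub_const L).const_mul 2).div_const c
      simpa using this
  obtain ⟨m, hm⟩ := cauchySeq_tendsto_of_complete hcau
  have hfm : Tendsto (fun n => f (x n)) atTop (𝓝 (f m)) := (hf.tendsto m).comp hm
  have hclose : ∀ n, f m + c * dist (x n) m ≤ f (x n) := by
    intro n
    have h1 : Tendsto (fun k => f (x (n+k)) + c * dist (x n) (x (n+k))) atTop
        (𝓝 (f m + c * dist (x n) m)) := by
      have ht : Tendsto (fun k => n + k) atTop atTop :=
        tendsto_atTop_mono (fun k => Nat.le_add_left k n) tendsto_id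
      exact (hfm.comp ht).add ((tendsto_const_nhds.dist (hm.comp ht)).const_mul c)
    exact le_of_tendsto h1 (Eventually.of_forall fun k => hmono n k)
  refine ⟨m, ?_, ?_⟩
  · have := hclose 0
    rwa [hx0] at this
  · intro w hw
    have h1 : ∀ n, f (x (n+1)) ≤ f w + (1/2:ℝ)^n := by
      intro n
      have := hg2 n (x n) w (htrans _ _ _ (hclose n) hw)
      rwa [← hxs] at this
    have h2 : Tendsto (fun n : ℕ => f w + (1/2:ℝ)^n) atTop (𝓝 (f w + 0)) :=
      (tendsto_pow_atTop_nhds_zero_of_lt_one (by norm_num) (by norm_num)).const_add _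
    have h3 : f m ≤ f w + 0 :=
      le_of_tendsto_of_tendsto' (hfm.comp (tendsto_add_atTop_nat 1)) h2 h1
    have h4 : c * dist m w ≤ 0 := by linarith
    have h5 := dist_nonneg (x := m) (y := w)
    by_contra hne
    have : 0 < dist m w := lt_of_le_of_ne h5 (Ne.symm hne)
    have := mul_pos hc this
    linarith

variable {X : Type*} [NormedAddCommGroup X] [NormedSpace ℝ X]

/-- `q` is the farthest point map of the set `K`. -/
structure Far (K : Set X) (q : X → X) : Prop where
  mem : ∀ x, q x ∈ K
  far : ∀ x, ∀ z ∈ K, dist x z ≤ dist x (q x)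
  uniq : ∀ x y, y ∈ K → dist x (q x) ≤ dist x y → y = q x

theorem exists_far {K : Set X}
    (h : ∀ x : X, ∃! y : X, y ∈ K ∧ ∀ z ∈ K, dist x z ≤ dist x y) : ∃ q, Far K q := by
  choose q hq1 hq2 using h
  refine ⟨q, fun x => (hq1 x).1, fun x => (hq1 x).2, fun x y hy h => ?_⟩
  exact hq2 x y ⟨hy, fun z hz => ((hq1 x).2 z hz).trans h⟩

section

variable {K : Set X} {q : X → X} (F : Far K q)
include F

theorem Far.le_add (x y : X) : dist y (q y) ≤ dist x (q x) + dist y x := by
  have h1 := dist_triangle y x (q y)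
  have h2 := F.far x (q y) (F.mem y)
  linarith

theorem Far.lipschitz : LipschitzWith 1 (fun x => dist x (q x)) := by
  refine LipschitzWith.of_le_add fun x y => ?_
  exact F.le_add y x

theorem Far.continuous : Continuous (fun x => dist x (q x)) := F.lipschitz.continuous

/-- Lemma 1: if `x` lies below `y` then both have the same farthest point. -/
theorem Far.eq_of_le {x y : X} (h : dist x (q x) + dist y x ≤ dist y (q y)) : q y = q x := by
  refine F.uniq x (q y) (F.mem y) ?_
  have := dist_triangle y x (q y)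
  linarith

theorem Far.convex (x y : X) {t : ℝ} (h0 : 0 ≤ t) (h1 : t ≤ 1) {z : X}
    (hz : z = (1 - t) • x + t • y) :
    dist z (q z) ≤ (1 - t) * dist x (q x) + t * dist y (q y) := by
  have h2 := F.far x (q z) (F.mem z)
  have h3 := F.far y (q z) (F.mem z)
  have h4 : dist z (q z) ≤ (1 - t) * dist x (q z) + t * dist y (q z) := by
    rw [dist_eq_norm, dist_eq_norm, dist_eq_norm]
    have : z - q z = (1 - t) • (x - q z) + t • (y - q z) := by
      rw [hz]; module
    calc ‖z - q z‖ = ‖(1 - t) • (x - q z) + t • (y - q z)‖ := by rw [← this]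
      _ ≤ ‖(1 - t) • (x - q z)‖ + ‖t • (y - q z)‖ := norm_add_le _ _
      _ = _ := by rw [norm_smul, norm_smul, Real.norm_of_nonneg h0,
            Real.norm_of_nonneg (by linarith)]
  have h5 := mul_le_mul_of_nonneg_left h2 (by linarith : (0:ℝ) ≤ 1 - t)
  have h6 := mul_le_mul_of_nonneg_left h3 h0
  linarith

/-- moving from `x` towards `m` by the distance `s ≤ dist x m`. -/
theorem Far.segment {c : ℝ} {x m : X} {s : ℝ} (hs : 0 < s) (hsm : s ≤ dist x m)
    (h : dist m (q m) + c * dist x m ≤ dist x (q x)) :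
    ∃ z, dist x z = s ∧ dist z (q z) + c * s ≤ dist x (q x) := by
  have hd : 0 < dist x m := lt_of_lt_of_le hs hsm
  set t := s / dist x m with ht
  have ht0 : 0 ≤ t := by positivity
  have ht1 : t ≤ 1 := by rw [ht, div_le_one hd]; exact hsm
  have hts : t * dist x m = s := by rw [ht]; field_simp
  refine ⟨(1 - t) • x + t • m, ?_, ?_⟩
  · rw [dist_eq_norm]
    have : x - ((1 - t) • x + t • m) = t • (x - m) := by module
    rw [this, norm_smul, Real.norm_of_nonneg ht0, ← dist_eq_norm, hts]
  · have h1 := F.convex x m ht0 ht1 rfl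
    have h2 := mul_le_mul_of_nonneg_left h ht0
    have h3 : t * (c * dist x m) = c * s := by rw [← hts]; ring
    nlinarith

theorem Far.const_of_zero {x : X} (h : dist x (q x) = 0) : K = {x} := by
  have h1 : x = q x := dist_eq_zero.1 h
  ext z
  constructor
  · intro hz
    have h2 := F.far x z hz
    rw [h] at h2
    have : dist x z = 0 := le_antisymm h2 dist_nonneg
    exact (dist_eq_zero.1 this).symm
  · rintro rfl
    rw [h1]; exact F.mem _

/-- Slope lemma: where `q` is continuous, the radius decreases with slope almost `1`. -/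
theorem Far.slope {x : X} (hq : ContinuousAt q x) (hpos : 0 < dist x (q x)) {c : ℝ} (hc : c < 1)
    {ρ : ℝ} (hρ : 0 < ρ) :
    ∃ z, z ≠ x ∧ dist x z < ρ ∧ dist z (q z) + c * dist x z ≤ dist x (q x) := by
  set R := dist x (q x) with hR
  set u := (1 / R) • (x - q x) with hu
  have hun : ‖u‖ = 1 := by
    rw [hu, norm_smul, ← dist_eq_norm, ← hR, Real.norm_of_nonneg (by positivity)]
    field_simp
  set T := R / 2 with hT
  have hT0 : 0 < T := by positivity
  have hlim : Tendsto (fun t : ℝ => dist (q (x - t • u)) (q x)) (𝓝 0) (𝓝 0) := by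
    have h1 : Tendsto (fun t : ℝ => x - t • u) (𝓝 0) (𝓝 x) := by
      have : Continuous (fun t : ℝ => x - t • u) := by fun_prop
      have h := this.tendsto 0
      simpa using h
    have h2 : Tendsto (fun t : ℝ => q (x - t • u)) (𝓝 0) (𝓝 (q x)) := hq.tendsto.comp h1
    have h3 := h2.dist (tendsto_const_nhds (x := q x))
    simpa using h3
  have hev : ∀ᶠ t in 𝓝 (0:ℝ), dist (q (x - t • u)) (q x) < (1 - c) * T :=
    hlim.eventually (gt_mem_nhds (by nlinarith))
  obtain ⟨δ, hδ, hδ'⟩ := Metric.eventually_nhds_iff.1 hev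
  set t := min (min (δ/2) (ρ/2)) T with ht
  have ht0 : 0 < t := by
    rw [ht]; exact lt_min (lt_min (by linarith) (by linarith)) hT0
  have htδ : t < δ := lt_of_le_of_lt ((min_le_left _ _).trans (min_le_left _ _)) (by linarith)
  have htρ : t < ρ := lt_of_le_of_lt ((min_le_left _ _).trans (min_le_right _ _)) (by linarith)
  have htT : t ≤ T := min_le_right _ _
  have hq2 : dist (q (x - t • u)) (q x) < (1 - c) * T := by
    refine hδ' ?_
    rw [Real.dist_eq, sub_zero, abs_of_pos ht0]; exact htδ
  have hdist : dist x (x - t • u) = t := by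
    rw [dist_eq_norm, sub_sub_cancel, norm_smul, hun, mul_one, Real.norm_of_nonneg ht0.le]
  refine ⟨x - t • u, ?_, ?_, ?_⟩
  · intro h
    rw [h, dist_self] at hdist
    linarith
  · rw [hdist]; exact htρ
  · rw [hdist]
    set z := x - t • u with hz
    -- the convex function τ ↦ ‖x - τ u - q z‖
    have e1 : dist x (q z) ≤ R := F.far x _ (F.mem _)
    have e2 : ‖x - T • u - q z‖ ≤ T + dist (q z) (q x) := by
      have h1 : x - T • u - q z = (x - T • u - q x) + (q x - q z) := by abel
      have h2 : x - T • u - q x = T • u := by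
        have h3 : x - q x = R • u := by
          rw [hu, smul_smul]
          have : R * (1 / R) = 1 := by field_simp
          rw [this, one_smul]
        have h4 : R = T + T := by rw [hT]; ring
        rw [sub_right_comm, h3]
        nth_rewrite 1 [h4]
        rw [add_smul]
        abel
      rw [h1]
      refine (norm_add_le _ _).trans ?_
      rw [h2, norm_smul, hun, mul_one, Real.norm_of_nonneg hT0.le, ← dist_eq_norm, dist_comm (q x)]
    set a := t / T with ha
    have ha0 : 0 ≤ a := by positivity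
    have ha1 : a ≤ 1 := by rw [ha, div_le_one hT0]; exact htT
    have haT : a * T = t := by rw [ha]; field_simp
    have e3 : dist z (q z) ≤ (1 - a) * dist x (q z) + a * ‖x - T • u - q z‖ := by
      rw [dist_eq_norm, dist_eq_norm]
      have h5 : z - q z = (1 - a) • (x - q z) + a • (x - T • u - q z) := by
        rw [hz, ← haT]; module
      calc ‖z - q z‖ = ‖(1 - a) • (x - q z) + a • (x - T • u - q z)‖ := by rw [← h5]
        _ ≤ ‖(1 - a) • (x - q z)‖ + ‖a • (x - T • u - q z)‖ := norm_add_le _ _
        _ = _ := by rw [norm_smul, norm_smul, Real.norm_of_nonneg ha0,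
              Real.norm_of_nonneg (by linarith)]
    have e4 := mul_le_mul_of_nonneg_left e1 (by linarith : (0:ℝ) ≤ 1 - a)
    have e5 := mul_le_mul_of_nonneg_left e2 ha0
    have e6 := mul_le_mul_of_nonneg_left hq2.le ha0
    have e7 : a * R = 2 * t := by rw [← haT, hT]; ring
    nlinarith

theorem Far.isClosed_pre {C : Set X} (hC : IsCompact C) (hCK : C ⊆ K) :
    IsClosed {x | q x ∈ C} := by
  refine IsSeqClosed.isClosed ?_
  intro u x hu hux
  obtain ⟨z, hz, φ, hφ, hlim⟩ := hC.tendsto_subseq hu
  have h1 : Tendsto (fun n => u (φ n)) atTop (𝓝 x) := hux.comp hφ.tendsto_atTop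
  have h2 : Tendsto (fun n => dist (u (φ n)) (q (u (φ n)))) atTop (𝓝 (dist x z)) :=
    h1.dist hlim
  have h3 : Tendsto (fun n => dist (u (φ n)) (q (u (φ n)))) atTop (𝓝 (dist x (q x))) :=
    (F.continuous.tendsto x).comp h1
  have h4 := tendsto_nhds_unique h2 h3
  have h5 := F.uniq x z (hCK hz) h4.ge
  show q x ∈ C
  rw [← h5]; exact hz

theorem Far.continuousAt {C : Set X} (hC : IsCompact C) (hCK : C ⊆ K) {p : X}
    (h : ∀ᶠ y in 𝓝 p, q y ∈ C) : ContinuousAt q p := by
  refine tendsto_of_subseq_tendsto fun ns hns => ?_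
  have h1 : ∀ᶠ n in atTop, q (ns n) ∈ C := hns.eventually h
  obtain ⟨z, hz, φ, hφ, hlim⟩ := hC.tendsto_subseq' h1.frequently
  refine ⟨φ, ?_⟩
  have h2 : Tendsto (fun n => ns (φ n)) atTop (𝓝 p) := hns.comp hφ.tendsto_atTop
  have h3 : Tendsto (fun n => dist (ns (φ n)) (q (ns (φ n)))) atTop (𝓝 (dist p z)) :=
    h2.dist hlim
  have h4 : Tendsto (fun n => dist (ns (φ n)) (q (ns (φ n)))) atTop (𝓝 (dist p (q p))) :=
    (F.continuous.tendsto p).comp h2
  have h5 := tendsto_nhds_unique h3 h4
  have h6 := F.uniq p z (hCK hz) h5.ge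
  rw [← h6]; exact hlim

/-- The main argument. -/
theorem Far.main [CompleteSpace X] (hK : IsSigmaCompact K)
    (hdesc : ∀ (p : X) (s : ℝ) (z : ℕ → X), 0 < s →
      Tendsto (fun k => dist p (z k)) atTop (𝓝 s) →
      Tendsto (fun k => dist (z k) (q (z k))) atTop (𝓝 (dist p (q p) - s)) →
      ∃ z', dist p z' ≠ 0 ∧ dist z' (q z') + dist p z' ≤ dist p (q p)) :
    ∃ a, K = {a} := by
  by_contra hne
  push Not at hne
  have hpos : ∀ x, 0 < dist x (q x) := by
    intro x
    refine lt_of_le_of_ne dist_nonneg fun h => hne x (F.const_of_zero h.symm)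
  obtain ⟨C, hC, hCK⟩ := hK
  have hCK' : ∀ n, C n ⊆ K := fun n => hCK ▸ subset_iUnion C n
  set M : Set X := {m | ∀ x, dist x (q x) + dist m x ≤ dist m (q m) → dist m x = 0} with hM
  have hEk : ∀ {c : ℝ}, 0 < c → ∀ y, ∃ m, dist m (q m) + c * dist y m ≤ dist y (q y) ∧
      ∀ x, dist x (q x) + c * dist m x ≤ dist m (q m) → dist m x = 0 := fun hc y =>
    ekeland (fun x => dist x (q x)) F.continuous (b := 0) (fun x => dist_nonneg) hc y
  have hEk1 : ∀ y, ∃ m ∈ M, dist m (q m) + dist y m ≤ dist y (q y) := by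
    intro y
    obtain ⟨m, h1, h2⟩ := hEk one_pos y
    exact ⟨m, fun x hx => h2 x (by simpa using hx), by simpa using h1⟩
  -- Baire
  obtain ⟨n, p, hp, ρ, hρ, hpρ⟩ : ∃ n, ∃ p ∈ M, ∃ ρ > 0, ∀ x ∈ M, dist p x < 2 * ρ →
      q x ∈ C n := by
    set N := closure M with hN
    obtain ⟨m0, hm0, -⟩ := hEk1 0
    haveI : Nonempty N := ⟨⟨m0, subset_closure hm0⟩⟩
    haveI : CompleteSpace N := isClosed_closure.completeSpace_coe
    have hcl : ∀ n, IsClosed {x : N | q x ∈ C n} := fun n =>
      (F.isClosed_pre (hC n) (hCK' n)).preimage continuous_subtype_val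
    have hun : ⋃ n, {x : N | q x ∈ C n} = univ := by
      refine eq_univ_of_forall fun x => ?_
      have := F.mem (x : X)
      rw [← hCK] at this
      obtain ⟨n, hn⟩ := mem_iUnion.1 this
      exact mem_iUnion.2 ⟨n, hn⟩
    obtain ⟨n, ⟨p0, hp0⟩⟩ := nonempty_interior_of_iUnion_of_closed hcl hun
    obtain ⟨t, ht, hto, hpt⟩ := mem_interior.1 hp0
    obtain ⟨U, hU, rfl⟩ := isOpen_induced_iff.1 hto
    have hp0N : (p0 : X) ∈ closure M := p0.2
    obtain ⟨p, hpU, hpM⟩ := mem_closure_iff.1 hp0N U hU hpt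
    obtain ⟨ε, hε, hεU⟩ := Metric.isOpen_iff.1 hU p hpU
    refine ⟨n, p, hpM, ε / 2, by positivity, fun x hx hd => ?_⟩
    have hxU : x ∈ U := hεU (by rw [mem_ball, dist_comm]; linarith)
    have := ht (show (⟨x, subset_closure hx⟩ : N) ∈ (Subtype.val : N → X) ⁻¹' U from hxU)
    exact this
  -- a whole ball around `p` is mapped into `C n`
  obtain ⟨σ, hσ, hσp⟩ : ∃ σ > 0, ∀ y, dist p y < σ → q y ∈ C n := by
    by_contra hcon
    push Not at hcon
    have h1 : ∀ k : ℕ, ∃ y, dist p y < min ρ (1 / ((k:ℝ) + 1)) ∧ q y ∉ C n := fun k =>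
      hcon _ (lt_min hρ (by positivity))
    choose y hy1 hy2 using h1
    have h2 : ∀ k, ∃ z, dist (y k) z = ρ ∧ dist z (q z) + 1 * ρ ≤ dist (y k) (q (y k)) := by
      intro k
      obtain ⟨m, hm, hmy⟩ := hEk1 (y k)
      have h3 : q (y k) = q m := F.eq_of_le hmy
      have h4 : 2 * ρ ≤ dist p m := by
        by_contra h
        push Not at h
        exact hy2 k (h3 ▸ hpρ m hm h)
      have h5 := dist_triangle p (y k) m
      have h6 := (hy1 k).trans_le (min_le_left _ _)
      exact F.segment hρ (by linarith) (c := 1) (m := m) (by simpa using hmy)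
    choose z hz1 hz2 using h2
    have hy0 : Tendsto (fun k => dist p (y k)) atTop (𝓝 0) :=
      squeeze_zero (fun _ => dist_nonneg)
        (fun k => ((hy1 k).trans_le (min_le_right _ _)).le) tendsto_one_div_add_atTop_nhds_zero_nat
    have hz3 : Tendsto (fun k => dist p (z k)) atTop (𝓝 ρ) := by
      have l1 : Tendsto (fun k => ρ - dist p (y k)) atTop (𝓝 ρ) := by
        simpa using hy0.const_sub ρ
      have l2 : Tendsto (fun k => ρ + dist p (y k)) atTop (𝓝 ρ) := by
        simpa using hy0.const_add ρ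
      refine tendsto_of_tendsto_of_tendsto_of_le_of_le l1 l2 (fun k => ?_) (fun k => ?_)
      · have := dist_triangle_left (y k) (z k) p
        have := hz1 k
        simp only
        linarith
      · have := dist_triangle p (y k) (z k)
        have := hz1 k
        simp only
        linarith
    have hz4 : Tendsto (fun k => dist (z k) (q (z k))) atTop (𝓝 (dist p (q p) - ρ)) := by
      have l1 : Tendsto (fun k => dist p (q p) - dist p (z k)) atTop (𝓝 (dist p (q p) - ρ)) :=
        hz3.const_sub _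
      have l2 : Tendsto (fun k => dist p (q p) - ρ + dist p (y k)) atTop
          (𝓝 (dist p (q p) - ρ)) := by
        simpa using hy0.const_add (dist p (q p) - ρ)
      refine tendsto_of_tendsto_of_tendsto_of_le_of_le l1 l2 (fun k => ?_) (fun k => ?_)
      · have := F.le_add (z k) p
        simp only
        linarith
      · have h7 := F.le_add p (y k)
        have h8 := hz2 k
        have h9 := dist_comm p (y k)
        simp only
        linarith
    obtain ⟨z', h10, h11⟩ := hdesc p ρ z hρ hz3 hz4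
    exact h10 (hp z' h11)
  have hcont : ∀ y, dist p y < σ → ContinuousAt q y := by
    intro y hy
    refine F.continuousAt (hC n) (hCK' n) ?_
    have : ball p σ ∈ 𝓝 y := isOpen_ball.mem_nhds (by rw [mem_ball, dist_comm]; exact hy)
    filter_upwards [this] with w hw
    exact hσp w (by rw [dist_comm]; exact hw)
  -- descents of slope `1 - 1/(k+2)` from `p` of length `σ`
  have h1 : ∀ k : ℕ, ∃ z, dist p z = σ ∧
      dist z (q z) + (1 - 1 / ((k:ℝ) + 2)) * σ ≤ dist p (q p) := by
    intro k
    have hk : (0:ℝ) < 1 / ((k:ℝ) + 2) := by positivity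
    have hk1 : 1 / ((k:ℝ) + 2) < 1 := by
      rw [div_lt_one (by positivity)]
      have : (0:ℝ) ≤ k := Nat.cast_nonneg k
      linarith
    obtain ⟨m, hm1, hm2⟩ := hEk (c := 1 - 1 / ((k:ℝ) + 2)) (by linarith) p
    have h2 : σ ≤ dist p m := by
      by_contra h
      push Not at h
      obtain ⟨z, hz1, -, hz3⟩ := F.slope (hcont m h) (hpos m)
        (c := 1 - 1 / ((k:ℝ) + 2)) (by linarith) one_pos
      exact hz1 (dist_eq_zero.1 (hm2 z hz3)).symm
    exact F.segment hσ h2 hm1
  choose z hz1 hz2 using h1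
  have hz3 : Tendsto (fun k => dist p (z k)) atTop (𝓝 σ) := by
    simp only [hz1]; exact tendsto_const_nhds
  have hz4 : Tendsto (fun k => dist (z k) (q (z k))) atTop (𝓝 (dist p (q p) - σ)) := by
    have l0 : Tendsto (fun k : ℕ => 1 / ((k:ℝ) + 2)) atTop (𝓝 0) := by
      have := tendsto_one_div_add_atTop_nhds_zero_nat (𝕜 := ℝ)
      have h := this.comp (tendsto_add_atTop_nat 1)
      refine h.congr fun k => ?_
      simp only [Function.comp, Nat.cast_add, Nat.cast_one]
      ring_nf
    have l2 : Tendsto (fun k : ℕ => dist p (q p) - (1 - 1 / ((k:ℝ) + 2)) * σ) atTop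
        (𝓝 (dist p (q p) - σ)) := by
      have := ((l0.const_sub 1).mul_const σ).const_sub (dist p (q p))
      simpa using this
    refine tendsto_of_tendsto_of_tendsto_of_le_of_le tendsto_const_nhds l2 (fun k => ?_)
      (fun k => ?_)
    · have := F.le_add (z k) p
      have := hz1 k
      linarith
    · have := hz2 k
      linarith
  obtain ⟨z', h10, h11⟩ := hdesc p σ z hσ hz3 hz4
  exact h10 (hp z' h11)

end

end Pool.Agent.Lib.MP_17c3bf_an
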