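import Pool.Agent.Lib.MP_17c3bf_an.Space

set_option autoImplicit false
set_option linter.unusedSectionVars false
open scoped ENNReal Topology
open Filter

namespace Pool.Agent.MP17c3bf

variable {I B : Type}

namespace Dat

variable (D : Dat I B) [Nonempty B] [DecidableEq I]

/-- basis vectors of the plain space -/
noncomputable def es (g : I) : E1 I := lp.single 1 g (1 : ℝ)

lemma es_self (g : I) : (es g : E1 I) g = 1 := lp.single_apply_self _ _ _

lemma es_ne {g h : I} (hgh : h ≠ g) : (es g : E1 I) h = 0 := lp.single_apply_ne _ _ _ hgh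

lemma sub_es_self (t : E1 I) (g : I) : (t - es g : E1 I) g = t g - 1 := by
  rw [lp.coeFn_sub, Pi.sub_apply, es_self]

lemma sub_es_ne (t : E1 I) {g h : I} (hgh : h ≠ g) : (t - es g : E1 I) h = t h := by
  rw [lp.coeFn_sub, Pi.sub_apply, es_ne hgh, sub_zero]

lemma N_sub (t : E1 I) (g : I) (G : B) :
    D.N (t - es g) G - D.N t G
      = phi (t g - 1) (D.H g (D.neg G)) (D.H g G) - phi (t g) (D.H g (D.neg G)) (D.H g G) := by
  unfold N
  rw [← (D.N_summable (t - es g) G).tsum_sub (D.N_summable t G), tsum_eq_single g]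
  · rw [sub_es_self]
  · intro h hh
    rw [sub_es_ne t hh, sub_self]

lemma N_sub_le (t : E1 I) (g : I) (G : B) : D.N (t - es g) G ≤ D.N t G + D.H g G := by
  have h := D.N_sub t g G
  have h2 := phi_sub_one (τ := t g) (D.pos g (D.neg G)) (D.pos g G)
  linarith

lemma N_sub_eq (t : E1 I) (g : I) (hg : t g ≤ 0) (G : B) :
    D.N (t - es g) G = D.N t G + D.H g G := by
  have h := D.N_sub t g G
  have h2 := phi_sub_one_eq (a := D.H g (D.neg G)) (b := D.H g G) hg
  linarith

/-- basis vectors of the renormed space -/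
noncomputable def e (g : I) : D.X := (es g : E1 I)

/-- the identity map into the renormed space -/
def ofE (t : E1 I) : D.X := t

lemma dist_e (t : E1 I) (g : I) : dist (D.ofE t) (D.e g) = D.p (t - es g) := by
  rw [dist_eq_norm]; rfl

theorem farthest_aux (R : B → ℝ) (ι : I → B) (hι : Function.Injective ι)
    (h1 : ∀ g G, D.H g G ≤ R G) (h2 : ∀ g G, D.H g G = R G → G = ι g)
    (h3 : ∀ g, D.H g (ι g) = R (ι g))
    (h5 : ∀ t : E1 I, ∃ G, ∀ G', D.N t G' ≤ D.N t G) (t : E1 I)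
    (h4 : ∃ g : I, (∀ G, D.N t G + R G ≤ D.N t (ι g) + R (ι g)) ∧
      (∀ G, D.N t (ι g) + R (ι g) ≤ D.N t G + R G → G = ι g) ∧ t g ≤ 0) :
    ∃! y, y ∈ Set.range D.e ∧ ∀ z ∈ Set.range D.e, dist (D.ofE t) z ≤ dist (D.ofE t) y := by
  obtain ⟨g, hmax, huniq, hg⟩ := h4
  have key1 : ∀ g', D.p (t - es g') ≤ D.N t (ι g) + R (ι g) := by
    intro g'
    refine ciSup_le fun G => ?_
    have a1 := D.N_sub_le t g' G
    have a2 := h1 g' G
    have a3 := hmax G
    linarith
  have key2 : D.p (t - es g) = D.N t (ι g) + R (ι g) := by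
    refine le_antisymm (key1 g) ?_
    have a1 := D.N_le_p (t - es g) (ι g)
    rw [D.N_sub_eq t g hg, h3] at a1
    exact a1
  have key3 : ∀ g', D.N t (ι g) + R (ι g) ≤ D.p (t - es g') → g' = g := by
    intro g' hg'
    obtain ⟨G, hG⟩ := h5 (t - es g')
    have a0 : D.p (t - es g') ≤ D.N (t - es g') G := ciSup_le hG
    have a1 := D.N_sub_le t g' G
    have a2 := h1 g' G
    have a3 := hmax G
    have e1 : G = ι g' := h2 g' G (by linarith)
    have e2 : G = ι g := huniq G (by linarith)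
    exact hι (e1.symm.trans e2)
  refine ⟨D.e g, ⟨⟨g, rfl⟩, ?_⟩, ?_⟩
  · rintro _ ⟨g', rfl⟩
    rw [dist_e, dist_e, key2]
    exact key1 g'
  · rintro _ ⟨⟨g', rfl⟩, h⟩
    have := h (D.e g) ⟨g, rfl⟩
    rw [dist_e, dist_e, key2] at this
    rw [key3 g' this]

theorem farthest (R : B → ℝ) (ι : I → B) (hι : Function.Injective ι)
    (h1 : ∀ g G, D.H g G ≤ R G) (h2 : ∀ g G, D.H g G = R G → G = ι g)
    (h3 : ∀ g, D.H g (ι g) = R (ι g))
    (h4 : ∀ t : E1 I, ∃ g : I, (∀ G, D.N t G + R G ≤ D.N t (ι g) + R (ι g)) ∧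
      (∀ G, D.N t (ι g) + R (ι g) ≤ D.N t G + R G → G = ι g) ∧ t g ≤ 0)
    (h5 : ∀ t : E1 I, ∃ G, ∀ G', D.N t G' ≤ D.N t G) (x : D.X) :
    ∃! y, y ∈ Set.range D.e ∧ ∀ z ∈ Set.range D.e, dist x z ≤ dist x y :=
  D.farthest_aux R ι hι h1 h2 h3 h5 x (h4 x)

lemma e_injective : Function.Injective D.e := by
  intro g h hgh
  by_contra hne
  have h1 : (es g : E1 I) g = (es h : E1 I) g := by
    have : (es g : E1 I) = es h := hgh
    rw [this]
  rw [es_self, es_ne hne] at h1
  exact one_ne_zero h1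

lemma es_linearIndependent : LinearIndependent ℝ (fun g : I => (es g : E1 I)) := by
  rw [linearIndependent_iff']
  intro s c hc i hi
  have h1 : ((∑ j ∈ s, c j • (es j : E1 I) : E1 I) : ∀ _ : I, ℝ) i = 0 := by
    rw [hc]; rfl
  rw [lp.coeFn_sum, Finset.sum_apply, Finset.sum_eq_single i] at h1
  · rw [lp.coeFn_smul, Pi.smul_apply, es_self, smul_eq_mul, mul_one] at h1
    exact h1
  · intro j _ hj
    rw [lp.coeFn_smul, Pi.smul_apply, es_ne hj.symm, smul_zero]
  · intro h; exact absurd hi h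

theorem not_finiteDimensional [Infinite I] : ¬ FiniteDimensional ℝ D.X := by
  intro h
  have h1 : FiniteDimensional ℝ (E1 I) := h
  have h2 := (es_linearIndependent (I := I)).finite
  exact not_finite I

theorem range_not_singleton [Nontrivial I] : ¬ ∃ a : D.X, Set.range D.e = {a} := by
  rintro ⟨a, ha⟩
  obtain ⟨g, h, hgh⟩ := exists_pair_ne I
  apply hgh
  apply D.e_injective
  have h1 : D.e g ∈ ({a} : Set D.X) := ha ▸ ⟨g, rfl⟩
  have h2 : D.e h ∈ ({a} : Set D.X) := ha ▸ ⟨h, rfl⟩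
  rw [Set.mem_singleton_iff] at h1 h2
  rw [h1, h2]

end Dat

end Pool.Agent.MP17c3bf
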