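import Pool.Agent.Lib.MP_17c3bf_an.Perturb

set_option autoImplicit false
set_option linter.unusedSectionVars false
set_option linter.unusedVariables false
open scoped ENNReal Topology
open Filter

namespace Pool.Agent.MP17c3bf

/-- index set: the nonzero points of the cube -/
abbrev Idx := {g : Cube // g.1 ≠ 0}

def negC (G : Cube) : Cube := ⟨-G.1, neg_cube G.2⟩

noncomputable def DD : Dat Idx Cube where
  neg := negC
  negneg G := Subtype.ext (neg_neg _)
  H g G := 13 - V g.1.1 G.1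
  lo g G := by have := V_le g.1.2 G.2; linarith
  hi g G := by have := le_V (g := g.1.1) G.2; linarith

noncomputable def ff (t : E1 Idx) (G : Cube) : ℝ := DD.N t G + Rf G.1

instance : Nonempty Cube := ⟨⟨0, zero_cube⟩⟩

/-- the lower semicontinuous companion of `N` -/
noncomputable def S (t : E1 Idx) (G : Cube) : ℝ :=
  ∑' g, phi (t g) (2 + V g.1.1 (-G.1)) (2 + V g.1.1 G.1)

lemma S_term_nonneg (t : E1 Idx) (G : Cube) (g : Idx) :
    0 ≤ phi (t g) (2 + V g.1.1 (-G.1)) (2 + V g.1.1 G.1) := by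
  have h1 := le_V (g := g.1.1) (neg_cube G.2)
  have h2 := le_V (g := g.1.1) G.2
  exact phi_nonneg (by linarith) (by linarith)

lemma S_summable (t : E1 Idx) (G : Cube) :
    Summable (fun g : Idx => phi (t g) (2 + V g.1.1 (-G.1)) (2 + V g.1.1 G.1)) := by
  refine Summable.of_nonneg_of_le (S_term_nonneg t G) (fun g => ?_)
    ((E1.summable t).mul_left 15)
  have h1 := V_le g.1.2 (neg_cube G.2)
  have h2 := V_le g.1.2 G.2
  exact phi_le (by linarith) (by linarith)

lemma N_eq (t : E1 Idx) (G : Cube) : DD.N t G = 15 * ‖t‖ - S t G := by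
  rw [E1.norm_eq, ← tsum_mul_left]
  unfold S Dat.N
  rw [← ((E1.summable t).mul_left 15).tsum_sub (S_summable t G)]
  refine tsum_congr fun g => ?_
  rw [← max_add_max_neg]
  change phi (t g) (13 - V g.1.1 (-G.1)) (13 - V g.1.1 G.1) = _
  unfold phi
  ring

lemma lsc_const_mul {α : Type} [TopologicalSpace α] {f : α → ℝ} {c : ℝ} (hc : 0 ≤ c)
    (hf : LowerSemicontinuous f) : LowerSemicontinuous (fun x => c * f x) := by
  have h1 : Continuous (fun x : ℝ => c * x) := continuous_const.mul continuous_id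
  have h2 : Monotone (fun x : ℝ => c * x) := fun a b h => mul_le_mul_of_nonneg_left h hc
  exact h1.comp_lowerSemicontinuous hf h2

lemma S_lsc (t : E1 Idx) : LowerSemicontinuous (S t) := by
  unfold S
  refine tsum_lsc (fun g G => S_term_nonneg t G g) (fun G => S_summable t G) (fun g => ?_)
  unfold phi
  refine LowerSemicontinuous.add ?_ ?_
  · exact lsc_const_mul (le_max_right _ _)
      ((continuous_const.lowerSemicontinuous).add (V_lsc_neg g.1.2))
  · exact lsc_const_mul (le_max_right _ _)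
      ((continuous_const.lowerSemicontinuous).add (V_lsc g.1.2))

lemma exists_min {f : Cube → ℝ} (hf : LowerSemicontinuous f) : ∃ G, ∀ G', f G ≤ f G' := by
  obtain ⟨G, _, hG⟩ := (hf.lowerSemicontinuousOn Set.univ).exists_isMinOn Set.univ_nonempty
    isCompact_univ
  exact ⟨G, fun G' => hG (Set.mem_univ G')⟩

lemma exists_max_N (t : E1 Idx) : ∃ G, ∀ G', DD.N t G' ≤ DD.N t G := by
  obtain ⟨G, hG⟩ := exists_min (S_lsc t)
  refine ⟨G, fun G' => ?_⟩
  rw [N_eq, N_eq]
  have := hG G'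
  linarith

lemma exists_max_ff (t : E1 Idx) : ∃ G, ∀ G', ff t G' ≤ ff t G := by
  obtain ⟨G, hG⟩ := exists_min (((S_lsc t).add Q_lsc).add (psi_lsc zero_cube))
  refine ⟨G, fun G' => ?_⟩
  unfold ff Rf
  rw [N_eq, N_eq]
  have := hG G'
  linarith

lemma phi_mono {τ a b a' b' : ℝ} (h1 : a ≤ a') (h2 : b ≤ b') : phi τ a b ≤ phi τ a' b' := by
  unfold phi
  have h3 := le_max_right τ 0
  have h4 := le_max_right (-τ) 0
  exact add_le_add (mul_le_mul_of_nonneg_left h1 h3) (mul_le_mul_of_nonneg_left h2 h4)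

noncomputable def midC (G G' : Cube) : Cube := ⟨mid G.1 G'.1, mid_cube G.2 G'.2⟩

lemma N_mid (t : E1 Idx) (G G' : Cube) : (DD.N t G + DD.N t G') / 2 ≤ DD.N t (midC G G') := by
  unfold Dat.N
  rw [← (DD.N_summable t G).tsum_add (DD.N_summable t G'), div_eq_mul_inv, ← tsum_mul_right]
  refine (((DD.N_summable t G).add (DD.N_summable t G')).mul_right _).tsum_le_tsum (fun g => ?_)
    (DD.N_summable t (midC G G'))
  change (phi (t g) (13 - V g.1.1 (-G.1)) (13 - V g.1.1 G.1)
    + phi (t g) (13 - V g.1.1 (-G'.1)) (13 - V g.1.1 G'.1)) * 2⁻¹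
    ≤ phi (t g) (13 - V g.1.1 (-(mid G.1 G'.1))) (13 - V g.1.1 (mid G.1 G'.1))
  have h1 := V_mid g.1.2 G.2 G'.2
  have h2 := V_mid g.1.2 (neg_cube G.2) (neg_cube G'.2)
  rw [← neg_mid] at h2
  refine le_trans (le_of_eq ?_) (phi_mono
    (a := 13 - (V g.1.1 (-G.1) + V g.1.1 (-G'.1)) / 2)
    (b := 13 - (V g.1.1 G.1 + V g.1.1 G'.1) / 2) (by linarith) (by linarith))
  unfold phi
  ring

lemma ff_mid (t : E1 Idx) {G G' : Cube} (h : G ≠ G') :
    (ff t G + ff t G') / 2 < ff t (midC G G') := by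
  have h1 := N_mid t G G'
  have h2 := Q_mid G.2 G'.2
  have h3 := diff_pos G.2 G'.2 (fun hc => h (Subtype.ext hc))
  have h4 := psi_mid zero_cube G.2 G'.2
  unfold ff Rf
  change _ < DD.N t (midC G G') + (13 - Q (mid G.1 G'.1) - psi 0 (mid G.1 G'.1))
  linarith

lemma ff_unique (t : E1 Idx) {G : Cube} (hG : ∀ G', ff t G' ≤ ff t G) {G' : Cube}
    (h : ff t G ≤ ff t G') : G' = G := by
  by_contra hne
  have h1 := ff_mid t hne
  have h2 := hG (midC G' G)
  linarith

noncomputable def PC (g : Cube) (m : ℕ) : Cube := ⟨pert g.1 m, pert_cube g.2 m⟩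

noncomputable def cc (t : E1 Idx) (g : Cube) (i : Idx) (m : ℕ) : ℝ :=
  (phi (t i) (13 - V i.1.1 (-(pert g.1 m))) (13 - V i.1.1 (pert g.1 m))
    - phi (t i) (13 - V i.1.1 (-g.1)) (13 - V i.1.1 g.1)) / alpha m

lemma phi_diff {τ a b a' b' C : ℝ} (h1 : |a - a'| ≤ C) (h2 : |b - b'| ≤ C) :
    |phi τ a b - phi τ a' b'| ≤ C * |τ| := by
  have h1' := abs_le.mp h1
  have h2' := abs_le.mp h2
  have h3 := le_max_right τ 0
  have h4 := le_max_right (-τ) 0
  have h5 := max_add_max_neg τ
  unfold phi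
  rw [← h5, abs_le]
  constructor
  · have e1 := mul_le_mul_of_nonneg_left h1'.1 h3
    have e2 := mul_le_mul_of_nonneg_left h2'.1 h4
    linarith
  · have e1 := mul_le_mul_of_nonneg_left h1'.2 h3
    have e2 := mul_le_mul_of_nonneg_left h2'.2 h4
    linarith

lemma cc_bound (t : E1 Idx) (g : Cube) (i : Idx) (m : ℕ) : |cc t g i m| ≤ 7 * |t i| := by
  unfold cc
  have ha := alpha_pos m
  rw [abs_div, abs_of_pos ha, div_le_iff₀ ha]
  have h1 := V_lip_pert g.2 i.1.2 m
  have h2 := V_lip_neg_pert g.2 i.1.2 m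
  have h3 := phi_diff (τ := t i) (a := 13 - V i.1.1 (-(pert g.1 m)))
    (b := 13 - V i.1.1 (pert g.1 m)) (a' := 13 - V i.1.1 (-g.1)) (b' := 13 - V i.1.1 g.1)
    (C := 7 * alpha m) (by rw [sub_sub_sub_cancel_left, abs_sub_comm]; exact h2)
    (by rw [sub_sub_sub_cancel_left, abs_sub_comm]; exact h1)
  linarith

lemma cc_tendsto (t : E1 Idx) (g : Cube) (i : Idx) (h : g.1 ≠ i.1.1) :
    Tendsto (cc t g i) atTop (𝓝 0) := by
  have h0 : Tendsto (fun m => 3 * tau m * |t i|) atTop (𝓝 0) := by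
    have := (tau_tendsto.const_mul 3).mul_const |t i|
    simpa using this
  refine squeeze_zero_norm' ?_ h0
  filter_upwards [V_pert g.2 i.1.2 i.2 h, V_neg_pert g.2 i.1.2 i.2 h] with m h1 h2
  unfold cc
  have ha := alpha_pos m
  rw [Real.norm_eq_abs, abs_div, abs_of_pos ha, div_le_iff₀ ha]
  have h3 := phi_diff (τ := t i) (a := 13 - V i.1.1 (-(pert g.1 m)))
    (b := 13 - V i.1.1 (pert g.1 m)) (a' := 13 - V i.1.1 (-g.1)) (b' := 13 - V i.1.1 g.1)
    (C := 3 * (alpha m * tau m)) (by rw [sub_sub_sub_cancel_left, abs_sub_comm]; exact h2)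
    (by rw [sub_sub_sub_cancel_left, abs_sub_comm]; exact h1)
  linarith

lemma N_PC (t : E1 Idx) (g : Cube) (m : ℕ) :
    DD.N t (PC g m) - DD.N t g = alpha m * ∑' i, cc t g i m := by
  unfold Dat.N
  rw [← (DD.N_summable t (PC g m)).tsum_sub (DD.N_summable t g), ← tsum_mul_left]
  refine tsum_congr fun i => ?_
  unfold cc
  rw [mul_div_cancel₀ _ (alpha_pos m).ne']
  rfl

lemma key_lower (t : E1 Idx) (g : Cube) (A : Idx → ℝ) (hA : ∀ i, |A i| ≤ 7 * |t i|)
    (hlim : ∀ i, Tendsto (fun m => min (cc t g i m) (A i)) atTop (𝓝 (A i))) {δ : ℝ}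
    (hδ : 0 < δ) :
    ∀ᶠ m in atTop, alpha m * (∑' i, A i - δ) ≤ DD.N t (PC g m) - DD.N t g := by
  have hsum : Summable (fun i => 7 * |t i|) := (E1.summable t).mul_left 7
  have hb : ∀ m i, |min (cc t g i m) (A i)| ≤ 7 * |t i| := by
    intro m i
    rcases min_choice (cc t g i m) (A i) with h | h
    · rw [h]; exact cc_bound t g i m
    · rw [h]; exact hA i
  have h1 : Tendsto (fun m => ∑' i, min (cc t g i m) (A i)) atTop (𝓝 (∑' i, A i)) := by
    refine tendsto_tsum_of_dominated_convergence hsum hlim ?_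
    exact Eventually.of_forall fun m i => by rw [Real.norm_eq_abs]; exact hb m i
  filter_upwards [h1.eventually_const_lt (show ∑' i, A i - δ < ∑' i, A i by linarith)] with m hm
  rw [N_PC]
  refine mul_le_mul_of_nonneg_left (hm.le.trans ?_) (alpha_pos m).le
  refine Summable.tsum_le_tsum (fun i => min_le_left _ _) ?_ ?_
  · exact Summable.of_norm_bounded hsum (fun i => by rw [Real.norm_eq_abs]; exact hb m i)
  · exact Summable.of_norm_bounded hsum
      (fun i => by rw [Real.norm_eq_abs]; exact cc_bound t g i m)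

lemma max_ne_zero (t : E1 Idx) {G : Cube} (hG : ∀ G', ff t G' ≤ ff t G) : G.1 ≠ 0 := by
  intro h0
  have hlow := key_lower t G (fun _ => 0) (fun i => by simp) (fun i => by
    have h1 := cc_tendsto t G i (by rw [h0]; exact i.2.symm)
    have h2 := h1.min (tendsto_const_nhds (x := (0 : ℝ)))
    rw [min_self] at h2
    exact h2) (δ := 1 / 4) (by norm_num)
  rw [tsum_zero] at hlow
  have htau := tau_tendsto.eventually_lt_const (show (0 : ℝ) < 1 / 4 by norm_num)
  obtain ⟨m, h1, h2⟩ := (hlow.and htau).exists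
  have h3 := R_pert_zero m
  have h4 := hG (PC G m)
  unfold ff at h4
  have h5 : (PC G m).1 = pert 0 m := by
    change pert G.1 m = _
    rw [h0]
  rw [h5, h0] at h4
  have h6 := alpha_pos m
  nlinarith

lemma max_nonpos (t : E1 Idx) (g : Idx) (hG : ∀ G', ff t G' ≤ ff t g.1) : t g ≤ 0 := by
  classical
  by_contra hcon
  push Not at hcon
  have hlow := key_lower t g.1 (fun i => if i = g then t g else 0) (fun i => by
    split_ifs with h
    · rw [h]; have := abs_nonneg (t g); linarith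
    · rw [abs_zero]; have := abs_nonneg (t i); linarith) (fun i => by
    by_cases h : i = g
    · subst h
      rw [if_pos rfl]
      have hl : Tendsto (fun m => t i * (1 - 3 * tau m)) atTop (𝓝 (t i)) := by
        have := ((tau_tendsto.const_mul 3).const_sub 1).const_mul (t i)
        simpa using this
      refine tendsto_of_tendsto_of_tendsto_of_le_of_le' hl tendsto_const_nhds ?_
        (Eventually.of_forall fun m => min_le_right _ _)
      filter_upwards [V_own i.1.2 i.2] with m hm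
      have ht := tau_nonneg m
      refine le_min ?_ (by nlinarith)
      unfold cc
      rw [le_div_iff₀ (alpha_pos m)]
      have e1 : max (t i) 0 = t i := max_eq_left hcon.le
      have e2 : max (-(t i)) 0 = 0 := max_eq_right (by linarith)
      unfold phi
      rw [e1, e2]
      have := mul_le_mul_of_nonneg_left hm hcon.le
      linarith
    · rw [if_neg h]
      have h1 := cc_tendsto t g.1 i (fun hc => h (Subtype.ext (Subtype.ext hc.symm)))
      have h2 := h1.min (tendsto_const_nhds (x := (0 : ℝ)))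
      rw [min_self] at h2
      exact h2) (δ := t g / 4) (by linarith)
  rw [tsum_ite_eq] at hlow
  have htau := tau_tendsto.eventually_lt_const (show (0 : ℝ) < t g / 8 by linarith)
  obtain ⟨m, ⟨h1, h2⟩, h3⟩ := ((hlow.and htau).and (R_pert_ne g.1.2 g.2)).exists
  have h4 := hG (PC g.1 m)
  unfold ff at h4
  have h5 : (PC g.1 m).1 = pert g.1.1 m := rfl
  rw [h5] at h4
  have h6 := alpha_pos m
  have h7 := mul_pos h6 hcon
  have h8 := mul_lt_mul_of_pos_left h2 h6
  linarith

lemma H_le_R (g : Idx) (G : Cube) : DD.H g G ≤ Rf G.1 := by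
  change 13 - V g.1.1 G.1 ≤ 13 - Q G.1 - psi 0 G.1
  have := V_ge g.1.1 G.1
  have := q_nonneg g.1.1 G.1
  linarith

lemma H_eq_R (g : Idx) (G : Cube) (h : DD.H g G = Rf G.1) : G = g.1 := by
  have h1 : 13 - V g.1.1 G.1 = 13 - Q G.1 - psi 0 G.1 := h
  have h2 := V_ge g.1.1 G.1
  exact Subtype.ext (eq_of_q_le_zero g.1.2 G.2 (by linarith))

lemma H_self (g : Idx) : DD.H g g.1 = Rf g.1.1 := by
  change 13 - V g.1.1 g.1.1 = 13 - Q g.1.1 - psi 0 g.1.1
  rw [V_self]
  ring

instance : Infinite Idx := by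
  have hc : ∀ n : ℕ, ∀ j : J, |(fun _ : J => 1 / ((n : ℝ) + 1)) j| ≤ 1 := by
    intro n j
    have h1 := alpha_pos n
    have h2 := alpha_le_one n
    unfold alpha at h1 h2
    rw [abs_of_pos h1]
    exact h2
  refine Infinite.of_injective (fun n : ℕ =>
    (⟨⟨fun _ => 1 / ((n : ℝ) + 1), hc n⟩, ?_⟩ : Idx)) ?_
  · intro h
    have := congrFun h ((0, ∅) : J)
    simp only [Pi.zero_apply] at this
    have h1 : 0 < 1 / ((n : ℝ) + 1) := by positivity
    linarith
  · intro a b hab
    have h1 : (fun _ : J => 1 / ((a : ℝ) + 1)) = fun _ : J => 1 / ((b : ℝ) + 1) :=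
      congrArg (fun x : Idx => x.1.1) hab
    have h2 := congrFun h1 ((0, ∅) : J)
    simp only [one_div, inv_inj, add_left_inj, Nat.cast_inj] at h2
    exact h2

noncomputable instance : DecidableEq Idx := Classical.decEq _

theorem main (x : DD.X) : ∃! y, y ∈ Set.range DD.e ∧
    ∀ z ∈ Set.range DD.e, dist x z ≤ dist x y := by
  refine DD.farthest (fun G => Rf G.1) (fun g => g.1) Subtype.val_injective H_le_R H_eq_R H_self
    ?_ exists_max_N x
  intro t
  obtain ⟨G, hG⟩ := exists_max_ff t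
  exact ⟨⟨G, max_ne_zero t hG⟩, hG, fun G' h => ff_unique t hG h,
    max_nonpos t ⟨G, max_ne_zero t hG⟩ hG⟩

end Pool.Agent.MP17c3bf
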