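import Pool.Agent.Lib.MP_17c3bf_an.Far

set_option autoImplicit false
set_option linter.unusedSectionVars false
open scoped ENNReal Topology
open Filter

namespace Pool.Agent.MP17c3bf

/-- countable coordinate set -/
abbrev J := ℕ × Finset ℕ

noncomputable def eps : J → ℝ := (posSumOfEncodable one_pos J).1

lemma eps_pos (j : J) : 0 < eps j := (posSumOfEncodable one_pos J).2.1 j

lemma eps_summable : Summable eps := by
  obtain ⟨c, hc, _⟩ := (posSumOfEncodable one_pos J).2.2
  exact hc.summable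

lemma eps_tsum_le : ∑' j, eps j ≤ 1 := by
  obtain ⟨c, hc, h1⟩ := (posSumOfEncodable one_pos J).2.2
  have : ∑' j, eps j = c := hc.tsum_eq
  rw [this]; exact h1

/-- the cube `[-1,1]^J` -/
abbrev Cube := {G : J → ℝ // ∀ j, |G j| ≤ 1}

instance : CompactSpace Cube := by
  refine (isCompact_iff_compactSpace (s := {G : J → ℝ | ∀ j, |G j| ≤ 1})).mp ?_
  have h : {G : J → ℝ | ∀ j, |G j| ≤ 1} = Set.pi Set.univ (fun _ => Set.Icc (-1 : ℝ) 1) := by
    ext G
    simp only [Set.mem_ofPred_eq, Set.mem_pi, Set.mem_univ, true_implies, Set.mem_Icc, abs_le]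
  rw [h]
  exact isCompact_univ_pi (fun _ => isCompact_Icc)

lemma exists_code : ∃ c : (J → ℝ) → Set ℕ, Function.Injective c := by
  have h : Cardinal.mk (J → ℝ) ≤ Cardinal.mk (Set ℕ) := by
    rw [Cardinal.mk_set, Cardinal.mk_nat, ← Cardinal.power_def, Cardinal.mk_real,
      Cardinal.mk_eq_aleph0 J, Cardinal.continuum_power_aleph0, Cardinal.two_power_aleph0]
  obtain ⟨f⟩ := Cardinal.le_def _ _ |>.mp h
  exact ⟨f, f.injective⟩

noncomputable def code : (J → ℝ) → Set ℕ := exists_code.choose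

lemma code_injective : Function.Injective code := exists_code.choose_spec

open Classical in
/-- the `k`-th node of the branch of `S` -/
noncomputable def node (S : Set ℕ) (k : ℕ) : J := (k, (Finset.range k).filter (· ∈ S))

lemma node_fst (S : Set ℕ) (k : ℕ) : (node S k).1 = k := rfl

lemma node_ne {S S' : Set ℕ} (h : S ≠ S') : ∃ n, ∀ k, n < k → node S k ≠ node S' k := by
  classical
  have : ∃ n, ¬ (n ∈ S ↔ n ∈ S') := by
    by_contra hcon
    push Not at hcon
    exact h (Set.ext hcon)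
  obtain ⟨n, hn⟩ := this
  refine ⟨n, fun k hk heq => hn ?_⟩
  have h2 : (Finset.range k).filter (· ∈ S) = (Finset.range k).filter (· ∈ S') := by
    have := congrArg Prod.snd heq
    exact this
  have h3 : n ∈ (Finset.range k).filter (· ∈ S) ↔ n ∈ (Finset.range k).filter (· ∈ S') := by
    rw [h2]
  simpa [hk] using h3

/-- the branch attached to a point of the cube -/
noncomputable def br (g : J → ℝ) (k : ℕ) : J := node (code g) k

lemma br_fst (g : J → ℝ) (k : ℕ) : (br g k).1 = k := rfl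

lemma br_ne {g g' : J → ℝ} (h : g ≠ g') : ∃ n, ∀ k, n < k → br g k ≠ br g' k :=
  node_ne (fun hc => h (code_injective hc))

noncomputable def alpha (k : ℕ) : ℝ := 1 / ((k : ℝ) + 1)

lemma alpha_pos (k : ℕ) : 0 < alpha k := by unfold alpha; positivity

lemma alpha_le_one (k : ℕ) : alpha k ≤ 1 := by
  unfold alpha
  rw [div_le_one (by positivity)]
  have : (0 : ℝ) ≤ k := Nat.cast_nonneg k
  linarith

lemma alpha_anti {k m : ℕ} (h : k ≤ m) : alpha m ≤ alpha k := by
  unfold alpha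
  apply one_div_le_one_div_of_le (by positivity)
  have : (k : ℝ) ≤ m := by exact_mod_cast h
  linarith

lemma alpha_tendsto : Tendsto alpha atTop (𝓝 0) := tendsto_one_div_add_atTop_nhds_zero_nat

noncomputable def sgn (x : ℝ) : ℝ := if 0 ≤ x then 1 else -1

lemma sgn_mul_self (x : ℝ) : sgn x * x = |x| := by
  unfold sgn
  split_ifs with h
  · rw [one_mul, abs_of_nonneg h]
  · rw [abs_of_neg (not_le.mp h)]; ring

lemma sgn_sq (x : ℝ) : sgn x * sgn x = 1 := by
  unfold sgn; split_ifs <;> norm_num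

lemma abs_sgn (x : ℝ) : |sgn x| = 1 := by
  unfold sgn; split_ifs <;> norm_num

lemma sgn_zero : sgn 0 = 1 := by unfold sgn; simp

/-- one term of `psi` -/
noncomputable def term (g G : J → ℝ) (k : ℕ) : ℝ :=
  sgn (g (br g k)) * (G (br g k) - g (br g k)) - alpha k

noncomputable def psi (g G : J → ℝ) : ℝ := ⨆ k : ℕ, term g G k

lemma abs_sgn_mul (x y : ℝ) : |sgn x * y| = |y| := by rw [abs_mul, abs_sgn, one_mul]

lemma term_le {g G : J → ℝ} (hg : ∀ j, |g j| ≤ 1) (hG : ∀ j, |G j| ≤ 1) (k : ℕ) :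
    term g G k ≤ 2 := by
  unfold term
  have h1 := le_abs_self (sgn (g (br g k)) * (G (br g k) - g (br g k)))
  rw [abs_sgn_mul] at h1
  have h2 := abs_sub (G (br g k)) (g (br g k))
  have h3 := hg (br g k)
  have h4 := hG (br g k)
  have h5 := alpha_pos k
  linarith

lemma psi_bdd {g G : J → ℝ} (hg : ∀ j, |g j| ≤ 1) (hG : ∀ j, |G j| ≤ 1) :
    BddAbove (Set.range (term g G)) :=
  ⟨2, by rintro _ ⟨k, rfl⟩; exact term_le hg hG k⟩

lemma term_le_psi {g G : J → ℝ} (hg : ∀ j, |g j| ≤ 1) (hG : ∀ j, |G j| ≤ 1) (k : ℕ) :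
    term g G k ≤ psi g G := le_ciSup (psi_bdd hg hG) k

lemma psi_le {g G : J → ℝ} (hg : ∀ j, |g j| ≤ 1) (hG : ∀ j, |G j| ≤ 1) : psi g G ≤ 2 :=
  ciSup_le (term_le hg hG)

lemma zero_cube : ∀ j : J, |(0 : J → ℝ) j| ≤ 1 := fun j => by simp

lemma neg_cube {G : J → ℝ} (hG : ∀ j, |G j| ≤ 1) : ∀ j, |(-G) j| ≤ 1 := fun j => by
  rw [Pi.neg_apply, abs_neg]; exact hG j

lemma term_zero (G : J → ℝ) (k : ℕ) : term 0 G k = G (br 0 k) - alpha k := by
  unfold term
  simp [sgn_zero]

lemma psi_zero_le {G : J → ℝ} (hG : ∀ j, |G j| ≤ 1) : psi 0 G ≤ 1 := by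
  refine ciSup_le fun k => ?_
  rw [term_zero]
  have h1 := (abs_le.mp (hG (br 0 k))).2
  have h5 := alpha_pos k
  linarith

lemma le_psi_zero {G : J → ℝ} (hG : ∀ j, |G j| ≤ 1) : -2 ≤ psi 0 G := by
  refine le_trans ?_ (term_le_psi zero_cube hG 0)
  rw [term_zero]
  have h1 := (abs_le.mp (hG (br 0 0))).1
  have h5 := alpha_le_one 0
  linarith

/-- a sharper lower bound -/
lemma neg_le_psi_zero {G : J → ℝ} (hG : ∀ j, |G j| ≤ 1) {c : ℝ} (hc : ∀ j, |G j| ≤ c) :
    -c ≤ psi 0 G := by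
  have h : ∀ k, -c - alpha k ≤ psi 0 G := by
    intro k
    refine le_trans ?_ (term_le_psi zero_cube hG k)
    rw [term_zero]
    have h1 := (abs_le.mp (hc (br 0 k))).1
    linarith
  have h2 : Tendsto (fun k => -c - alpha k) atTop (𝓝 (-c - 0)) :=
    tendsto_const_nhds.sub alpha_tendsto
  rw [sub_zero] at h2
  exact le_of_tendsto' h2 h

lemma psi_self_nonneg {g : J → ℝ} (hg : ∀ j, |g j| ≤ 1) : 0 ≤ psi g g := by
  have h : ∀ k, 0 - alpha k ≤ psi g g := by
    intro k
    refine le_trans (le_of_eq ?_) (term_le_psi hg hg k)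
    unfold term
    rw [sub_self, mul_zero]
  have h2 : Tendsto (fun k => 0 - alpha k) atTop (𝓝 (0 - 0)) :=
    tendsto_const_nhds.sub alpha_tendsto
  rw [sub_zero] at h2
  exact le_of_tendsto' h2 h

lemma psi_zero_zero_le : psi 0 0 ≤ 0 := by
  refine ciSup_le fun k => ?_
  rw [term_zero]
  have h5 := alpha_pos k
  simp only [Pi.zero_apply]
  linarith

lemma psi_neg_self_le (g : J → ℝ) : psi g (-g) ≤ 0 := by
  refine ciSup_le fun k => ?_
  unfold term
  have h1 := sgn_mul_self (g (br g k))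
  have h5 := alpha_pos k
  have h6 := abs_nonneg (g (br g k))
  have h7 : sgn (g (br g k)) * ((-g) (br g k) - g (br g k))
      = -2 * (sgn (g (br g k)) * g (br g k)) := by
    rw [Pi.neg_apply]; ring
  rw [h7, h1]
  linarith

lemma psi_lip {g G G' : J → ℝ} (hg : ∀ j, |g j| ≤ 1) (hG' : ∀ j, |G' j| ≤ 1)
    {d : ℝ} (hd : ∀ j, |G j - G' j| ≤ d) : psi g G ≤ psi g G' + d := by
  refine ciSup_le fun k => ?_
  have h1 := term_le_psi hg hG' k
  have h2 : term g G k - term g G' k = sgn (g (br g k)) * (G (br g k) - G' (br g k)) := by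
    unfold term; ring
  have h3 := le_abs_self (sgn (g (br g k)) * (G (br g k) - G' (br g k)))
  rw [abs_sgn_mul] at h3
  have h4 := hd (br g k)
  linarith

lemma psi_lip_abs {g G G' : J → ℝ} (hg : ∀ j, |g j| ≤ 1) (hG : ∀ j, |G j| ≤ 1)
    (hG' : ∀ j, |G' j| ≤ 1) {d : ℝ} (hd : ∀ j, |G j - G' j| ≤ d) :
    |psi g G - psi g G'| ≤ d := by
  rw [abs_le]
  have h1 := psi_lip hg hG' hd
  have h2 := psi_lip (G := G') (G' := G) hg hG (d := d)
    (fun j => by rw [abs_sub_comm]; exact hd j)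
  constructor <;> linarith

lemma psi_congr {g G G' : J → ℝ} (h : ∀ k, G (br g k) = G' (br g k)) : psi g G = psi g G' := by
  unfold psi
  refine iSup_congr fun k => ?_
  unfold term
  rw [h k]

/-- midpoint -/
noncomputable def mid (G G' : J → ℝ) : J → ℝ := fun j => (G j + G' j) / 2

lemma mid_cube {G G' : J → ℝ} (hG : ∀ j, |G j| ≤ 1) (hG' : ∀ j, |G' j| ≤ 1) :
    ∀ j, |mid G G' j| ≤ 1 := by
  intro j
  unfold mid
  have h1 := abs_le.mp (hG j)
  have h2 := abs_le.mp (hG' j)
  rw [abs_le]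
  constructor <;> linarith [h1.1, h1.2, h2.1, h2.2]

lemma neg_mid (G G' : J → ℝ) : -(mid G G') = mid (-G) (-G') := by
  funext j; simp only [mid, Pi.neg_apply]; ring

lemma psi_mid {g G G' : J → ℝ} (hg : ∀ j, |g j| ≤ 1) (hG : ∀ j, |G j| ≤ 1)
    (hG' : ∀ j, |G' j| ≤ 1) : psi g (mid G G') ≤ (psi g G + psi g G') / 2 := by
  refine ciSup_le fun k => ?_
  have h1 := term_le_psi hg hG k
  have h2 := term_le_psi hg hG' k
  have h3 : term g (mid G G') k = (term g G k + term g G' k) / 2 := by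
    unfold term mid; ring
  linarith

lemma term_continuous (g : J → ℝ) (k : ℕ) : Continuous (fun G : J → ℝ => term g G k) := by
  unfold term
  exact (continuous_const.mul ((continuous_apply _).sub continuous_const)).sub continuous_const

lemma psi_lsc {g : J → ℝ} (hg : ∀ j, |g j| ≤ 1) :
    LowerSemicontinuous (fun G : Cube => psi g G.1) := by
  unfold psi
  refine lowerSemicontinuous_ciSup (fun G => psi_bdd hg G.2) (fun k => ?_)
  exact ((term_continuous g k).comp continuous_subtype_val).lowerSemicontinuous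

lemma psi_lsc_neg {g : J → ℝ} (hg : ∀ j, |g j| ≤ 1) :
    LowerSemicontinuous (fun G : Cube => psi g (-G.1)) := by
  unfold psi
  refine lowerSemicontinuous_ciSup (fun G => psi_bdd hg (neg_cube G.2)) (fun k => ?_)
  exact ((term_continuous g k).comp (continuous_subtype_val.neg)).lowerSemicontinuous

/-- a sum of nonnegative lower semicontinuous functions is lower semicontinuous -/
lemma tsum_lsc {α β : Type} [TopologicalSpace α] {f : β → α → ℝ} (h0 : ∀ i x, 0 ≤ f i x)
    (hs : ∀ x, Summable (fun i => f i x)) (hl : ∀ i, LowerSemicontinuous (f i)) :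
    LowerSemicontinuous (fun x => ∑' i, f i x) := by
  intro x y hy
  have h1 : ∃ F : Finset β, y < ∑ i ∈ F, f i x := by
    have := (hs x).hasSum.eventually_const_lt hy
    obtain ⟨F, hF⟩ := this.exists
    exact ⟨F, hF⟩
  obtain ⟨F, hF⟩ := h1
  have h2 : LowerSemicontinuous (fun x => ∑ i ∈ F, f i x) := by
    exact lowerSemicontinuous_sum (fun i _ => hl i)
  filter_upwards [h2 x y hF] with z hz
  exact hz.trans_le ((hs z).sum_le_tsum F (fun i _ => h0 i z))

end Pool.Agent.MP17c3bf
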