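import Pool.Agent.Lib.MP_17c3bf_an.V

set_option autoImplicit false
set_option linter.unusedSectionVars false
set_option linter.unusedVariables false
open scoped ENNReal Topology
open Filter

namespace Pool.Agent.MP17c3bf

open Classical in
/-- the perturbation of `g` along its branch from level `m` on -/
noncomputable def pert (g : J → ℝ) (m : ℕ) : J → ℝ := fun j =>
  if m ≤ j.1 ∧ j = br g j.1 then g j - sgn (g j) * alpha m else g j

lemma pert_cube {g : J → ℝ} (hg : ∀ j, |g j| ≤ 1) (m : ℕ) : ∀ j, |pert g m j| ≤ 1 := by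
  intro j
  unfold pert
  have h1 := abs_le.mp (hg j)
  have h2 := alpha_pos m
  have h3 := alpha_le_one m
  split_ifs with h
  · unfold sgn
    rw [abs_le]
    split_ifs with h0
    · constructor <;> linarith [h1.1, h1.2]
    · push Not at h0
      constructor <;> linarith [h1.1, h1.2]
  · exact hg j

noncomputable def ind (m : ℕ) (j : J) : ℝ := if m ≤ j.1 then 1 else 0

lemma ind_nonneg (m : ℕ) (j : J) : 0 ≤ ind m j := by unfold ind; split_ifs <;> norm_num

lemma ind_le_one (m : ℕ) (j : J) : ind m j ≤ 1 := by unfold ind; split_ifs <;> norm_num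

lemma pert_sub (g : J → ℝ) (m : ℕ) (j : J) : |pert g m j - g j| ≤ alpha m * ind m j := by
  unfold pert ind
  by_cases hm : m ≤ j.1
  · rw [if_pos hm, mul_one]
    split_ifs with h
    · have : g j - sgn (g j) * alpha m - g j = -(sgn (g j) * alpha m) := by ring
      rw [this, abs_neg, abs_sgn_mul, abs_of_pos (alpha_pos m)]
    · rw [sub_self, abs_zero]; exact (alpha_pos m).le
  · rw [if_neg (fun h => hm h.1), if_neg hm, sub_self, abs_zero, mul_zero]

lemma pert_sub' (g : J → ℝ) (m : ℕ) (j : J) : |pert g m j - g j| ≤ alpha m := by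
  have h1 := pert_sub g m j
  have h2 := ind_le_one m j
  have h3 := alpha_pos m
  nlinarith

lemma neg_sub_neg_abs (a b : J → ℝ) (j : J) : |(-a) j - (-b) j| = |a j - b j| := by
  have : (-a) j - (-b) j = -(a j - b j) := by simp only [Pi.neg_apply]; ring
  rw [this, abs_neg]

noncomputable def tau (m : ℕ) : ℝ := ∑' j, eps j * ind m j

lemma tau_nonneg (m : ℕ) : 0 ≤ tau m :=
  tsum_nonneg fun j => mul_nonneg (eps_pos j).le (ind_nonneg m j)

lemma tau_tendsto : Tendsto tau atTop (𝓝 0) := by
  have h : Tendsto (fun m => ∑' j, eps j * ind m j) atTop (𝓝 (∑' j : J, (0 : ℝ))) := by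
    refine tendsto_tsum_of_dominated_convergence (bound := eps) eps_summable (fun j => ?_) ?_
    · refine tendsto_const_nhds.congr' ?_
      filter_upwards [eventually_gt_atTop j.1] with m hm
      unfold ind
      rw [if_neg (by omega), mul_zero]
    · refine Eventually.of_forall fun m j => ?_
      rw [Real.norm_eq_abs, abs_mul, abs_of_pos (eps_pos j), abs_of_nonneg (ind_nonneg m j)]
      have := mul_le_mul_of_nonneg_left (ind_le_one m j) (eps_pos j).le
      linarith
  rw [tsum_zero] at h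
  exact h

lemma ind_summable (m : ℕ) : Summable (fun j => eps j * (alpha m * ind m j)) :=
  summable_bdd (fun j => mul_nonneg (alpha_pos m).le (ind_nonneg m j))
    (fun j => mul_le_of_le_one_right (alpha_pos m).le (ind_le_one m j))

lemma ind_tsum (m : ℕ) : ∑' j, eps j * (alpha m * ind m j) = alpha m * tau m := by
  unfold tau
  rw [← tsum_mul_left]
  refine tsum_congr fun j => ?_
  ring

lemma psi_pert_le {g : J → ℝ} (m : ℕ) : psi g (pert g m) ≤ -alpha m := by
  refine ciSup_le fun k => ?_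
  unfold term
  by_cases hk : m ≤ k
  · have h1 : pert g m (br g k) = g (br g k) - sgn (g (br g k)) * alpha m := by
      unfold pert
      rw [if_pos]
      exact ⟨by rw [br_fst]; exact hk, by rw [br_fst]⟩
    rw [h1]
    have h2 : sgn (g (br g k)) * (g (br g k) - sgn (g (br g k)) * alpha m - g (br g k))
        = -((sgn (g (br g k)) * sgn (g (br g k))) * alpha m) := by ring
    rw [h2, sgn_sq, one_mul]
    have := alpha_pos k
    linarith
  · have h1 : pert g m (br g k) = g (br g k) := by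
      unfold pert
      rw [if_neg]
      intro h
      rw [br_fst] at h
      exact hk h.1
    rw [h1, sub_self, mul_zero]
    have := alpha_anti (k := k) (m := m) (by omega)
    linarith

lemma pert_coord (g : J → ℝ) (j : J) : ∀ᶠ m in atTop, pert g m j = g j := by
  filter_upwards [eventually_gt_atTop j.1] with m hm
  unfold pert
  rw [if_neg]
  intro h
  omega

lemma pert_branch {g g' : J → ℝ} (h : g ≠ g') :
    ∀ᶠ m in atTop, ∀ k, pert g m (br g' k) = g (br g' k) := by
  obtain ⟨n, hn⟩ := br_ne h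
  filter_upwards [eventually_gt_atTop n] with m hm k
  unfold pert
  rw [if_neg]
  rintro ⟨h1, h2⟩
  rw [br_fst] at h1 h2
  exact hn k (by omega) h2.symm

lemma psi_pert {g g' : J → ℝ} (h : g ≠ g') :
    ∀ᶠ m in atTop, psi g' (pert g m) = psi g' g := by
  filter_upwards [pert_branch h] with m hm
  exact psi_congr hm

lemma psi_neg_pert {g g' : J → ℝ} (h : g ≠ g') :
    ∀ᶠ m in atTop, psi g' (-(pert g m)) = psi g' (-g) := by
  filter_upwards [pert_branch h] with m hm
  refine psi_congr fun k => ?_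
  rw [Pi.neg_apply, Pi.neg_apply, hm k]

/-- eventually the `sec` part is unchanged -/
lemma sec_pert {g g' : J → ℝ} (hg : ∀ j, |g j| ≤ 1) (hg' : ∀ j, |g' j| ≤ 1) (h0 : g' ≠ 0) :
    ∀ᶠ m in atTop, sec g' (pert g m) = sec g' g := by
  by_cases hz : g = 0
  · subst hz
    filter_upwards [pert_coord 0 (jj g')] with m hm
    have h1 := second_pos hg' h0
    have h2 : psi 0 (pert 0 m) ≤ -alpha m := psi_pert_le m
    have h3 := alpha_pos m
    have h4 := psi_zero_zero_le
    unfold sec
    rw [hm]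
    simp only [Pi.zero_apply, zero_sub, abs_neg]
    rw [max_eq_right (by linarith), max_eq_right (by linarith)]
  · filter_upwards [pert_coord g (jj g'), psi_pert (g' := 0) hz] with m hm h2
    unfold sec
    rw [hm, h2]

lemma sec_neg_pert {g g' : J → ℝ} (hg : ∀ j, |g j| ≤ 1) (hg' : ∀ j, |g' j| ≤ 1) (h0 : g' ≠ 0) :
    ∀ᶠ m in atTop, sec g' (-(pert g m)) = sec g' (-g) := by
  by_cases hz : g = 0
  · subst hz
    have h1 := second_pos hg' h0
    filter_upwards [pert_coord 0 (jj g'), alpha_tendsto.eventually_lt_const h1] with m hm ha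
    have h2 : psi 0 (-(pert 0 m)) ≤ psi 0 0 + alpha m := by
      refine psi_lip zero_cube zero_cube (fun j => ?_)
      have h5 := pert_sub' 0 m j
      simp only [Pi.zero_apply, Pi.neg_apply, sub_zero, abs_neg] at h5 ⊢
      exact h5
    have h3 := alpha_pos m
    have h4 := psi_zero_zero_le
    unfold sec
    rw [Pi.neg_apply, Pi.neg_apply, hm]
    simp only [Pi.zero_apply, zero_sub, abs_neg, neg_zero]
    rw [max_eq_right (by linarith), max_eq_right (by linarith)]
  · filter_upwards [pert_coord g (jj g'), psi_neg_pert (g' := 0) hz] with m hm h2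
    unfold sec
    rw [Pi.neg_apply, Pi.neg_apply, hm, h2]

lemma thi_pert {g g' : J → ℝ} (h : g ≠ g') :
    ∀ᶠ m in atTop, thi g' (pert g m) = thi g' g := by
  filter_upwards [pert_coord g (jj g'), psi_neg_pert h] with m hm h2
  unfold thi
  rw [hm, h2]

lemma thi_neg_pert {g g' : J → ℝ} (h : g ≠ g') :
    ∀ᶠ m in atTop, thi g' (-(pert g m)) = thi g' (-g) := by
  filter_upwards [pert_coord g (jj g'), psi_pert h] with m hm h2
  unfold thi
  rw [neg_neg, neg_neg, Pi.neg_apply, Pi.neg_apply, hm, h2]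

lemma V_pert {g g' : J → ℝ} (hg : ∀ j, |g j| ≤ 1) (hg' : ∀ j, |g' j| ≤ 1) (h0 : g' ≠ 0)
    (h : g ≠ g') :
    ∀ᶠ m in atTop, |V g' (pert g m) - V g' g| ≤ 3 * (alpha m * tau m) := by
  filter_upwards [sec_pert hg hg' h0, thi_pert h] with m h1 h2
  have := V_diff (d := 0) hg' (pert_cube hg m) hg (pert_sub g m) (ind_summable m)
    (by rw [h1, sub_self, abs_zero]) (by rw [h2, sub_self, abs_zero])
  rw [ind_tsum] at this
  linarith

lemma V_neg_pert {g g' : J → ℝ} (hg : ∀ j, |g j| ≤ 1) (hg' : ∀ j, |g' j| ≤ 1) (h0 : g' ≠ 0)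
    (h : g ≠ g') :
    ∀ᶠ m in atTop, |V g' (-(pert g m)) - V g' (-g)| ≤ 3 * (alpha m * tau m) := by
  filter_upwards [sec_neg_pert hg hg' h0, thi_neg_pert h] with m h1 h2
  have := V_diff (d := 0) hg' (neg_cube (pert_cube hg m)) (neg_cube hg)
    (fun j => by rw [neg_sub_neg_abs]; exact pert_sub g m j) (ind_summable m)
    (by rw [h1, sub_self, abs_zero]) (by rw [h2, sub_self, abs_zero])
  rw [ind_tsum] at this
  linarith

/-- the own term drops -/
lemma V_own {g : J → ℝ} (hg : ∀ j, |g j| ≤ 1) (h0 : g ≠ 0) :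
    ∀ᶠ m in atTop, V g (-(pert g m)) - V g (-g) ≤ -alpha m + 3 * (alpha m * tau m) := by
  have hpos : 0 < 2 * |g (jj g)| := by have := jj_pos hg h0; linarith
  filter_upwards [sec_neg_pert hg hg h0, pert_coord g (jj g),
    alpha_tendsto.eventually_lt_const hpos] with m h1 h2 h3
  have a1 := abs_le.mp (Q_diff (neg_cube (pert_cube hg m)) (neg_cube hg)
    (fun j => by rw [neg_sub_neg_abs]; exact pert_sub g m j) (ind_summable m))
  have a2 := abs_le.mp (q_diff hg (neg_cube (pert_cube hg m)) (neg_cube hg)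
    (fun j => by rw [neg_sub_neg_abs]; exact pert_sub g m j) (ind_summable m))
  rw [ind_tsum] at a1 a2
  have h4 : |-(g (jj g)) - g (jj g)| = 2 * |g (jj g)| := by
    have : -(g (jj g)) - g (jj g) = -(2 * g (jj g)) := by ring
    rw [this, abs_neg, abs_mul, abs_of_pos (by norm_num : (0 : ℝ) < 2)]
  have h5 : thi g (-(pert g m)) ≤ 2 * |g (jj g)| - alpha m := by
    unfold thi
    rw [neg_neg, Pi.neg_apply, h2, h4]
    apply max_le
    · linarith
    · have := psi_pert_le (g := g) m
      linarith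
  have h6 : 2 * |g (jj g)| ≤ thi g (-g) := by
    unfold thi
    rw [neg_neg, Pi.neg_apply, h4]
    have := psi_self_nonneg hg
    exact le_trans (by linarith) (le_max_right _ _)
  unfold V
  linarith [a1.1, a1.2, a2.1, a2.2]

lemma V_lip_pert {g g' : J → ℝ} (hg : ∀ j, |g j| ≤ 1) (hg' : ∀ j, |g' j| ≤ 1) (m : ℕ) :
    |V g' (pert g m) - V g' g| ≤ 7 * alpha m :=
  V_lip hg' (pert_cube hg m) hg (pert_sub' g m)

lemma V_lip_neg_pert {g g' : J → ℝ} (hg : ∀ j, |g j| ≤ 1) (hg' : ∀ j, |g' j| ≤ 1) (m : ℕ) :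
    |V g' (-(pert g m)) - V g' (-g)| ≤ 7 * alpha m :=
  V_lip hg' (neg_cube (pert_cube hg m)) (neg_cube hg)
    (fun j => by rw [neg_sub_neg_abs]; exact pert_sub' g m j)

/-- variation of `R` -/
noncomputable def Rf (G : J → ℝ) : ℝ := 13 - Q G - psi 0 G

lemma R_pert_ne {g : J → ℝ} (hg : ∀ j, |g j| ≤ 1) (h0 : g ≠ 0) :
    ∀ᶠ m in atTop, -(2 * (alpha m * tau m)) ≤ Rf (pert g m) - Rf g := by
  filter_upwards [psi_pert (g' := 0) h0] with m h1
  have a1 := abs_le.mp (Q_diff (pert_cube hg m) hg (pert_sub g m) (ind_summable m))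
  rw [ind_tsum] at a1
  unfold Rf
  rw [h1]
  linarith [a1.1, a1.2]

lemma R_pert_zero (m : ℕ) :
    alpha m - 2 * (alpha m * tau m) ≤ Rf (pert 0 m) - Rf 0 := by
  have a1 := abs_le.mp (Q_diff (pert_cube zero_cube m) zero_cube (pert_sub 0 m) (ind_summable m))
  rw [ind_tsum] at a1
  unfold Rf
  have h1 : psi 0 (pert 0 m) ≤ -alpha m := psi_pert_le m
  have h2 := psi_self_nonneg zero_cube
  linarith [a1.1, a1.2]

end Pool.Agent.MP17c3bf
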