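import Mathlib

set_option autoImplicit false
set_option linter.unusedSectionVars false
open scoped ENNReal Topology
open Filter

namespace Pool.Agent.MP17c3bf

/-! Abstract part: renorming of `ℓ¹(I)` by a family of weights. -/

/-- Weights: a set `B` with an involution and functions `H g : B → [1,15]`. -/
structure Dat (I B : Type) where
  neg : B → B
  negneg : ∀ G, neg (neg G) = G
  H : I → B → ℝ
  lo : ∀ g G, 1 ≤ H g G
  hi : ∀ g G, H g G ≤ 15

/-- the plain `ℓ¹(I)` -/
abbrev E1 (I : Type) := lp (fun _ : I => ℝ) 1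

lemma E1.summable {I : Type} (t : E1 I) : Summable (fun g => |t g|) := by
  have h := (lp.memℓp t).summable (by norm_num : 0 < (1 : ℝ≥0∞).toReal)
  simpa using h

lemma E1.norm_eq {I : Type} (t : E1 I) : ‖t‖ = ∑' g, |t g| := by
  rw [lp.norm_eq_tsum_rpow (by norm_num : 0 < (1 : ℝ≥0∞).toReal)]
  simp

variable {I B : Type}

/-- one coordinate of the asymmetric norm -/
def phi (τ a b : ℝ) : ℝ := max τ 0 * a + max (-τ) 0 * b

lemma phi_nonneg {τ a b : ℝ} (ha : 0 ≤ a) (hb : 0 ≤ b) : 0 ≤ phi τ a b := by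
  unfold phi
  have := le_max_right τ 0
  have := le_max_right (-τ) 0
  positivity

lemma max_add_max_neg (τ : ℝ) : max τ 0 + max (-τ) 0 = |τ| := by
  rcases le_total 0 τ with h | h
  · rw [max_eq_left h, max_eq_right (by linarith), abs_of_nonneg h, add_zero]
  · rw [max_eq_right h, max_eq_left (by linarith), abs_of_nonpos h, zero_add]

lemma phi_le {τ a b C : ℝ} (ha : a ≤ C) (hb : b ≤ C) : phi τ a b ≤ C * |τ| := by
  rw [← max_add_max_neg]
  unfold phi
  have h1 := le_max_right τ 0
  have h2 := le_max_right (-τ) 0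
  nlinarith [mul_le_mul_of_nonneg_left ha h1, mul_le_mul_of_nonneg_left hb h2]

lemma le_phi {τ a b c : ℝ} (ha : c ≤ a) (hb : c ≤ b) : c * |τ| ≤ phi τ a b := by
  rw [← max_add_max_neg]
  unfold phi
  have h1 := le_max_right τ 0
  have h2 := le_max_right (-τ) 0
  nlinarith [mul_le_mul_of_nonneg_left ha h1, mul_le_mul_of_nonneg_left hb h2]

lemma phi_add {τ τ' a b : ℝ} (ha : 0 ≤ a) (hb : 0 ≤ b) :
    phi (τ + τ') a b ≤ phi τ a b + phi τ' a b := by
  unfold phi
  have h1 : max (τ + τ') 0 ≤ max τ 0 + max τ' 0 := by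
    apply max_le
    · exact add_le_add (le_max_left _ _) (le_max_left _ _)
    · exact add_nonneg (le_max_right _ _) (le_max_right _ _)
  have h2 : max (-(τ + τ')) 0 ≤ max (-τ) 0 + max (-τ') 0 := by
    apply max_le
    · have := add_le_add (le_max_left (-τ) 0) (le_max_left (-τ') 0)
      linarith
    · exact add_nonneg (le_max_right _ _) (le_max_right _ _)
  nlinarith [mul_le_mul_of_nonneg_right h1 ha, mul_le_mul_of_nonneg_right h2 hb]

lemma phi_smul_nonneg {c τ a b : ℝ} (hc : 0 ≤ c) : phi (c * τ) a b = c * phi τ a b := by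
  unfold phi
  have h1 : max (c * τ) 0 = c * max τ 0 := by
    rw [mul_max_of_nonneg _ _ hc, mul_zero]
  have h2 : max (-(c * τ)) 0 = c * max (-τ) 0 := by
    rw [mul_max_of_nonneg _ _ hc, mul_zero, mul_neg]
  rw [h1, h2]; ring

lemma phi_neg {τ a b : ℝ} : phi (-τ) a b = phi τ b a := by
  unfold phi
  rw [neg_neg]; ring

/-- the basic inequality for one coordinate -/
lemma phi_sub_one {τ a b : ℝ} (ha : 0 < a) (hb : 0 < b) :
    phi (τ - 1) a b ≤ phi τ a b + b := by
  unfold phi
  rcases le_total τ 0 with h | h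
  · rw [max_eq_right (by linarith : τ - 1 ≤ 0), max_eq_left (by linarith : 0 ≤ -(τ - 1)),
      max_eq_right h, max_eq_left (by linarith : 0 ≤ -τ)]
    linarith
  · rcases le_total τ 1 with h' | h'
    · rw [max_eq_right (by linarith : τ - 1 ≤ 0), max_eq_left (by linarith : 0 ≤ -(τ - 1)),
        max_eq_left h, max_eq_right (by linarith : -τ ≤ 0)]
      nlinarith
    · rw [max_eq_left (by linarith : 0 ≤ τ - 1), max_eq_right (by linarith : -(τ - 1) ≤ 0),
        max_eq_left h, max_eq_right (by linarith : -τ ≤ 0)]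
      nlinarith

lemma phi_sub_one_lt {τ a b : ℝ} (ha : 0 < a) (hb : 0 < b) (hτ : 0 < τ) :
    phi (τ - 1) a b < phi τ a b + b := by
  unfold phi
  rcases le_total τ 1 with h' | h'
  · rw [max_eq_right (by linarith : τ - 1 ≤ 0), max_eq_left (by linarith : 0 ≤ -(τ - 1)),
      max_eq_left hτ.le, max_eq_right (by linarith : -τ ≤ 0)]
    nlinarith [mul_pos hτ ha, mul_pos hτ hb]
  · rw [max_eq_left (by linarith : 0 ≤ τ - 1), max_eq_right (by linarith : -(τ - 1) ≤ 0),
      max_eq_left hτ.le, max_eq_right (by linarith : -τ ≤ 0)]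
    nlinarith

lemma phi_sub_one_eq {τ a b : ℝ} (hτ : τ ≤ 0) :
    phi (τ - 1) a b = phi τ a b + b := by
  unfold phi
  rw [max_eq_right (by linarith : τ - 1 ≤ 0), max_eq_left (by linarith : 0 ≤ -(τ - 1)),
      max_eq_right hτ, max_eq_left (by linarith : 0 ≤ -τ)]
  ring

namespace Dat

variable (D : Dat I B)

/-- the asymmetric norm attached to `G ∈ B` -/
noncomputable def N (t : E1 I) (G : B) : ℝ := ∑' g, phi (t g) (D.H g (D.neg G)) (D.H g G)

lemma pos (g : I) (G : B) : 0 < D.H g G := lt_of_lt_of_le one_pos (D.lo g G)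

lemma N_summable (t : E1 I) (G : B) :
    Summable (fun g => phi (t g) (D.H g (D.neg G)) (D.H g G)) := by
  refine Summable.of_nonneg_of_le (fun g => phi_nonneg (D.pos _ _).le (D.pos _ _).le)
    (fun g => phi_le (D.hi _ _) (D.hi _ _)) ((E1.summable t).mul_left 15)

lemma N_le (t : E1 I) (G : B) : D.N t G ≤ 15 * ‖t‖ := by
  rw [E1.norm_eq, ← tsum_mul_left]
  exact (D.N_summable t G).tsum_le_tsum (fun g => phi_le (D.hi _ _) (D.hi _ _))
    ((E1.summable t).mul_left 15)

lemma le_N (t : E1 I) (G : B) : ‖t‖ ≤ D.N t G := by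
  rw [E1.norm_eq]
  refine (E1.summable t).tsum_le_tsum (fun g => ?_) (D.N_summable t G)
  have := le_phi (τ := t g) (D.lo g (D.neg G)) (D.lo g G)
  linarith

lemma N_nonneg (t : E1 I) (G : B) : 0 ≤ D.N t G := (norm_nonneg t).trans (D.le_N t G)

lemma N_add (s t : E1 I) (G : B) : D.N (s + t) G ≤ D.N s G + D.N t G := by
  unfold N
  rw [← (D.N_summable s G).tsum_add (D.N_summable t G)]
  refine (D.N_summable (s + t) G).tsum_le_tsum (fun g => ?_)
    ((D.N_summable s G).add (D.N_summable t G))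
  exact phi_add (D.pos _ _).le (D.pos _ _).le

lemma N_smul_nonneg {c : ℝ} (hc : 0 ≤ c) (t : E1 I) (G : B) : D.N (c • t) G = c * D.N t G := by
  unfold N
  rw [← tsum_mul_left]
  refine tsum_congr (fun g => ?_)
  exact phi_smul_nonneg hc

lemma N_neg (t : E1 I) (G : B) : D.N (-t) G = D.N t (D.neg G) := by
  unfold N
  refine tsum_congr (fun g => ?_)
  rw [D.negneg]
  exact phi_neg

variable [Nonempty B]

/-- the new norm -/
noncomputable def p (t : E1 I) : ℝ := ⨆ G : B, D.N t G

lemma bdd (t : E1 I) : BddAbove (Set.range fun G : B => D.N t G) :=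
  ⟨15 * ‖t‖, by rintro _ ⟨G, rfl⟩; exact D.N_le t G⟩

lemma N_le_p (t : E1 I) (G : B) : D.N t G ≤ D.p t := le_ciSup (D.bdd t) G

lemma p_le (t : E1 I) : D.p t ≤ 15 * ‖t‖ := ciSup_le (D.N_le t)

lemma le_p (t : E1 I) : ‖t‖ ≤ D.p t :=
  (D.le_N t (Classical.arbitrary B)).trans (D.N_le_p t _)

lemma p_add (s t : E1 I) : D.p (s + t) ≤ D.p s + D.p t :=
  ciSup_le fun G => (D.N_add s t G).trans (add_le_add (D.N_le_p _ _) (D.N_le_p _ _))

lemma p_neg_le (t : E1 I) : D.p (-t) ≤ D.p t :=
  ciSup_le fun G => by rw [N_neg]; exact D.N_le_p _ _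

lemma p_neg (t : E1 I) : D.p (-t) = D.p t :=
  le_antisymm (D.p_neg_le t) (by simpa using D.p_neg_le (-t))

lemma p_smul_nonneg {c : ℝ} (hc : 0 ≤ c) (t : E1 I) : D.p (c • t) = c * D.p t := by
  unfold p
  rw [Real.mul_iSup_of_nonneg hc]
  exact iSup_congr fun G => D.N_smul_nonneg hc t G

lemma p_smul (c : ℝ) (t : E1 I) : D.p (c • t) = |c| * D.p t := by
  rcases le_total 0 c with h | h
  · rw [abs_of_nonneg h, D.p_smul_nonneg h]
  · rw [abs_of_nonpos h, ← D.p_neg, ← D.p_smul_nonneg (by linarith : 0 ≤ -c), neg_smul]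

lemma p_nonneg (t : E1 I) : 0 ≤ D.p t := (norm_nonneg t).trans (D.le_p t)

lemma p_eq_zero_iff (t : E1 I) : D.p t = 0 ↔ t = 0 := by
  constructor
  · intro h
    exact norm_le_zero_iff.mp ((D.le_p t).trans h.le)
  · intro h
    have h1 := D.p_le t
    rw [h, norm_zero, mul_zero] at h1
    rw [h]
    exact le_antisymm h1 (D.p_nonneg 0)

/-- the renormed space -/
def X (_D : Dat I B) : Type := E1 I

noncomputable instance : AddCommGroup D.X := inferInstanceAs (AddCommGroup (E1 I))
noncomputable instance : Module ℝ D.X := inferInstanceAs (Module ℝ (E1 I))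
noncomputable instance : Norm D.X := ⟨fun t => D.p (t : E1 I)⟩

lemma norm_def (t : D.X) : ‖t‖ = D.p (t : E1 I) := rfl

lemma core : NormedSpace.Core ℝ D.X where
  norm_nonneg t := D.p_nonneg t
  norm_smul c t := by
    rw [norm_def, norm_def, Real.norm_eq_abs]; exact D.p_smul c t
  norm_triangle s t := D.p_add s t
  norm_eq_zero_iff t := D.p_eq_zero_iff t

noncomputable instance : NormedAddCommGroup D.X := NormedAddCommGroup.ofCore D.core
noncomputable instance : NormedSpace ℝ D.X := NormedSpace.ofCore D.core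

/-- identity map to the plain space -/
noncomputable def toE : D.X ≃ₗ[ℝ] E1 I := LinearEquiv.refl ℝ (E1 I)

noncomputable def toECLE : D.X ≃L[ℝ] E1 I :=
  D.toE.toContinuousLinearEquivOfBounds 1 15
    (fun t => by rw [one_mul]; exact D.le_p t)
    (fun t => D.p_le t)

instance : CompleteSpace D.X := by
  have h := D.toECLE.isUniformEmbedding
  exact (completeSpace_congr (e := D.toECLE.toEquiv) h).mpr inferInstance

end Dat

end Pool.Agent.MP17c3bf
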