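import Pool.Agent.Lib.MP_17c3bf_an.Funcs

set_option autoImplicit false
set_option linter.unusedSectionVars false
set_option linter.unusedVariables false
open scoped ENNReal Topology
open Filter

namespace Pool.Agent.MP17c3bf

noncomputable def Q (G : J → ℝ) : ℝ := ∑' j, eps j * (G j) ^ 2

noncomputable def q (g G : J → ℝ) : ℝ := ∑' j, eps j * |G j - g j|

lemma summable_bdd {a : J → ℝ} {C : ℝ} (h0 : ∀ j, 0 ≤ a j) (h : ∀ j, a j ≤ C) :
    Summable (fun j => eps j * a j) := by
  refine Summable.of_nonneg_of_le (fun j => mul_nonneg (eps_pos j).le (h0 j))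
    (fun j => ?_) (eps_summable.mul_right C)
  exact mul_le_mul_of_nonneg_left (h j) (eps_pos j).le

lemma tsum_bdd {a : J → ℝ} {C : ℝ} (h0 : ∀ j, 0 ≤ a j) (h : ∀ j, a j ≤ C) :
    ∑' j, eps j * a j ≤ C := by
  have hC : 0 ≤ C := (h0 (0, ∅)).trans (h (0, ∅))
  have h1 : ∑' j, eps j * a j ≤ ∑' j, eps j * C :=
    (summable_bdd h0 h).tsum_le_tsum
      (fun j => mul_le_mul_of_nonneg_left (h j) (eps_pos j).le) (eps_summable.mul_right C)
  rw [tsum_mul_right] at h1
  have h2 := mul_le_mul_of_nonneg_right eps_tsum_le hC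
  linarith

lemma sq_le_one' {x : ℝ} (h : |x| ≤ 1) : x ^ 2 ≤ 1 := by
  rw [← sq_abs]; exact pow_le_one₀ (abs_nonneg _) h

lemma Q_summable {G : J → ℝ} (hG : ∀ j, |G j| ≤ 1) : Summable (fun j => eps j * (G j) ^ 2) :=
  summable_bdd (fun j => sq_nonneg _) (fun j => sq_le_one' (hG j))

lemma Q_nonneg (G : J → ℝ) : 0 ≤ Q G :=
  tsum_nonneg fun j => mul_nonneg (eps_pos j).le (sq_nonneg _)

lemma Q_le_one {G : J → ℝ} (hG : ∀ j, |G j| ≤ 1) : Q G ≤ 1 :=
  tsum_bdd (fun j => sq_nonneg _) (fun j => sq_le_one' (hG j))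

lemma abs_sub_le_two {x y : ℝ} (hx : |x| ≤ 1) (hy : |y| ≤ 1) : |x - y| ≤ 2 := by
  have := abs_sub x y; linarith

lemma q_summable {g G : J → ℝ} (hg : ∀ j, |g j| ≤ 1) (hG : ∀ j, |G j| ≤ 1) :
    Summable (fun j => eps j * |G j - g j|) :=
  summable_bdd (fun j => abs_nonneg _) (fun j => abs_sub_le_two (hG j) (hg j))

lemma q_nonneg (g G : J → ℝ) : 0 ≤ q g G :=
  tsum_nonneg fun j => mul_nonneg (eps_pos j).le (abs_nonneg _)

lemma q_le_two {g G : J → ℝ} (hg : ∀ j, |g j| ≤ 1) (hG : ∀ j, |G j| ≤ 1) : q g G ≤ 2 :=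
  tsum_bdd (fun j => abs_nonneg _) (fun j => abs_sub_le_two (hG j) (hg j))

lemma q_self (g : J → ℝ) : q g g = 0 := by
  unfold q; simp

lemma eq_of_q_le_zero {g G : J → ℝ} (hg : ∀ j, |g j| ≤ 1) (hG : ∀ j, |G j| ≤ 1)
    (h : q g G ≤ 0) : G = g := by
  funext j
  have h1 : eps j * |G j - g j| ≤ q g G :=
    (q_summable hg hG).le_tsum j (fun i _ => mul_nonneg (eps_pos i).le (abs_nonneg _))
  have h2 : eps j * |G j - g j| ≤ 0 := h1.trans h
  have h3 := eps_pos j
  have h4 : |G j - g j| ≤ 0 := by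
    by_contra hc
    push Not at hc
    have := mul_pos h3 hc
    linarith
  exact sub_eq_zero.mp (abs_nonpos_iff.mp h4)

lemma Q_diff {G G' w : J → ℝ} (hG : ∀ j, |G j| ≤ 1) (hG' : ∀ j, |G' j| ≤ 1)
    (hw : ∀ j, |G j - G' j| ≤ w j) (hs : Summable (fun j => eps j * w j)) :
    |Q G - Q G'| ≤ 2 * ∑' j, eps j * w j := by
  unfold Q
  rw [← (Q_summable hG).tsum_sub (Q_summable hG'), ← tsum_mul_left]
  have hb : ∀ j, |eps j * (G j) ^ 2 - eps j * (G' j) ^ 2| ≤ 2 * (eps j * w j) := by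
    intro j
    have h1 : eps j * (G j) ^ 2 - eps j * (G' j) ^ 2
        = eps j * ((G j - G' j) * (G j + G' j)) := by ring
    rw [h1, abs_mul, abs_mul, abs_of_pos (eps_pos j)]
    have h2 : |G j + G' j| ≤ 2 := by
      have := abs_add_le (G j) (G' j); linarith [hG j, hG' j]
    have h3 : |G j - G' j| * |G j + G' j| ≤ w j * 2 :=
      mul_le_mul (hw j) h2 (abs_nonneg _) ((abs_nonneg _).trans (hw j))
    have := mul_le_mul_of_nonneg_left h3 (eps_pos j).le
    linarith
  have hsum : Summable (fun j => |eps j * (G j) ^ 2 - eps j * (G' j) ^ 2|) :=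
    Summable.of_nonneg_of_le (fun j => abs_nonneg _) hb (hs.mul_left 2)
  have h5 : |∑' j, (eps j * (G j) ^ 2 - eps j * (G' j) ^ 2)|
      ≤ ∑' j, |eps j * (G j) ^ 2 - eps j * (G' j) ^ 2| := by
    have := norm_tsum_le_tsum_norm (f := fun j => eps j * (G j) ^ 2 - eps j * (G' j) ^ 2)
      (by simpa using hsum)
    simpa using this
  exact h5.trans (hsum.tsum_le_tsum hb (hs.mul_left 2))

lemma q_diff {g G G' w : J → ℝ} (hg : ∀ j, |g j| ≤ 1) (hG : ∀ j, |G j| ≤ 1)
    (hG' : ∀ j, |G' j| ≤ 1)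
    (hw : ∀ j, |G j - G' j| ≤ w j) (hs : Summable (fun j => eps j * w j)) :
    |q g G - q g G'| ≤ ∑' j, eps j * w j := by
  unfold q
  rw [← (q_summable hg hG).tsum_sub (q_summable hg hG')]
  have hb : ∀ j, abs (eps j * |G j - g j| - eps j * |G' j - g j|) ≤ eps j * w j := by
    intro j
    rw [← mul_sub, abs_mul, abs_of_pos (eps_pos j)]
    refine mul_le_mul_of_nonneg_left ?_ (eps_pos j).le
    have h1 := abs_abs_sub_abs_le_abs_sub (G j - g j) (G' j - g j)
    have h2 : G j - g j - (G' j - g j) = G j - G' j := by ring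
    rw [h2] at h1
    exact h1.trans (hw j)
  have hsum : Summable (fun j => abs (eps j * |G j - g j| - eps j * |G' j - g j|)) :=
    Summable.of_nonneg_of_le (fun j => abs_nonneg _) hb hs
  have h5 : abs (∑' j, (eps j * |G j - g j| - eps j * |G' j - g j|))
      ≤ ∑' j, abs (eps j * |G j - g j| - eps j * |G' j - g j|) := by
    have := norm_tsum_le_tsum_norm (f := fun j => eps j * |G j - g j| - eps j * |G' j - g j|)
      (by simpa using hsum)
    simpa using this
  exact h5.trans (hsum.tsum_le_tsum hb hs)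

lemma Q_mid {G G' : J → ℝ} (hG : ∀ j, |G j| ≤ 1) (hG' : ∀ j, |G' j| ≤ 1) :
    Q (mid G G') = (Q G + Q G') / 2 - (∑' j, eps j * (G j - G' j) ^ 2) / 4 := by
  have hs : Summable (fun j => eps j * (G j - G' j) ^ 2) := by
    refine summable_bdd (C := 4) (fun j => sq_nonneg _) (fun j => ?_)
    have := abs_sub_le_two (hG j) (hG' j)
    rw [← sq_abs]
    nlinarith [abs_nonneg (G j - G' j)]
  have h1 := (Q_summable hG).add (Q_summable hG')
  unfold Q
  rw [← (Q_summable hG).tsum_add (Q_summable hG'), div_eq_mul_inv, div_eq_mul_inv,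
    ← tsum_mul_right, ← tsum_mul_right, ← (h1.mul_right _).tsum_sub (hs.mul_right _)]
  refine tsum_congr fun j => ?_
  unfold mid
  ring

lemma diff_pos {G G' : J → ℝ} (hG : ∀ j, |G j| ≤ 1) (hG' : ∀ j, |G' j| ≤ 1) (h : G ≠ G') :
    0 < ∑' j, eps j * (G j - G' j) ^ 2 := by
  have hs : Summable (fun j => eps j * (G j - G' j) ^ 2) := by
    refine summable_bdd (C := 4) (fun j => sq_nonneg _) (fun j => ?_)
    have := abs_sub_le_two (hG j) (hG' j)
    rw [← sq_abs]
    nlinarith [abs_nonneg (G j - G' j)]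
  obtain ⟨j, hj⟩ := Function.ne_iff.mp h
  refine hs.tsum_pos (fun i => mul_nonneg (eps_pos i).le (sq_nonneg _)) j ?_
  have : G j - G' j ≠ 0 := sub_ne_zero.mpr hj
  have h1 := eps_pos j
  positivity

lemma abs_mid (x y z : ℝ) : |(x + y) / 2 - z| ≤ (|x - z| + |y - z|) / 2 := by
  have h : (x + y) / 2 - z = ((x - z) + (y - z)) / 2 := by ring
  rw [h, abs_div, abs_of_pos (by norm_num : (0 : ℝ) < 2)]
  have := abs_add_le (x - z) (y - z)
  linarith

lemma q_mid {g G G' : J → ℝ} (hg : ∀ j, |g j| ≤ 1) (hG : ∀ j, |G j| ≤ 1)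
    (hG' : ∀ j, |G' j| ≤ 1) : q g (mid G G') ≤ (q g G + q g G') / 2 := by
  unfold q
  rw [← (q_summable hg hG).tsum_add (q_summable hg hG'), div_eq_mul_inv, ← tsum_mul_right]
  refine (q_summable hg (mid_cube hG hG')).tsum_le_tsum (fun j => ?_)
    (((q_summable hg hG).add (q_summable hg hG')).mul_right _)
  have h1 := abs_mid (G j) (G' j) (g j)
  have h2 := mul_le_mul_of_nonneg_left h1 (eps_pos j).le
  unfold mid
  linarith

lemma Q_neg (G : J → ℝ) : Q (-G) = Q G := by
  unfold Q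
  refine tsum_congr fun j => ?_
  rw [Pi.neg_apply, neg_sq]

lemma Q_lsc : LowerSemicontinuous (fun G : Cube => Q G.1) := by
  refine tsum_lsc (fun j G => mul_nonneg (eps_pos j).le (sq_nonneg _))
    (fun G => Q_summable G.2) (fun j => ?_)
  exact (continuous_const.mul
    (((continuous_apply j).comp continuous_subtype_val).pow 2)).lowerSemicontinuous

lemma q_lsc {g : J → ℝ} (hg : ∀ j, |g j| ≤ 1) : LowerSemicontinuous (fun G : Cube => q g G.1) := by
  refine tsum_lsc (fun j G => mul_nonneg (eps_pos j).le (abs_nonneg _))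
    (fun G => q_summable hg G.2) (fun j => ?_)
  exact (continuous_const.mul
    (((continuous_apply j).comp continuous_subtype_val).sub continuous_const).abs).lowerSemicontinuous

lemma q_lsc_neg {g : J → ℝ} (hg : ∀ j, |g j| ≤ 1) :
    LowerSemicontinuous (fun G : Cube => q g (-G.1)) := by
  refine tsum_lsc (fun j G => mul_nonneg (eps_pos j).le (abs_nonneg _))
    (fun G => q_summable hg (neg_cube G.2)) (fun j => ?_)
  exact (continuous_const.mul
    (((continuous_apply j).comp continuous_subtype_val.neg).sub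
      continuous_const).abs).lowerSemicontinuous

/-- the distinguished coordinate of `g` -/
noncomputable def jj (g : J → ℝ) : J :=
  Classical.epsilon (fun j : J => ∀ i, |g i| ≤ 3 / 2 * |g j|)

lemma jj_spec {g : J → ℝ} (hg : ∀ j, |g j| ≤ 1) (hne : g ≠ 0) :
    ∀ i, |g i| ≤ 3 / 2 * |g (jj g)| := by
  apply Classical.epsilon_spec (p := fun j : J => ∀ i, |g i| ≤ 3 / 2 * |g j|)
  have hb : BddAbove (Set.range fun j => |g j|) := ⟨1, by rintro _ ⟨j, rfl⟩; exact hg j⟩
  obtain ⟨j0, hj0⟩ := Function.ne_iff.mp hne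
  have hpos : 0 < ⨆ j, |g j| := lt_of_lt_of_le (abs_pos.mpr hj0) (le_ciSup hb j0)
  have hlt : 2 / 3 * ⨆ j, |g j| < ⨆ j, |g j| := by linarith
  obtain ⟨j, hj⟩ := exists_lt_of_lt_ciSup hlt
  refine ⟨j, fun i => ?_⟩
  have := le_ciSup hb i
  linarith

lemma jj_pos {g : J → ℝ} (hg : ∀ j, |g j| ≤ 1) (hne : g ≠ 0) : 0 < |g (jj g)| := by
  obtain ⟨j0, hj0⟩ := Function.ne_iff.mp hne
  have h1 := jj_spec hg hne j0
  have h2 : 0 < |g j0| := abs_pos.mpr hj0
  linarith

lemma second_pos {g : J → ℝ} (hg : ∀ j, |g j| ≤ 1) (hne : g ≠ 0) :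
    0 < psi 0 g + 2 * |g (jj g)| := by
  have h1 := neg_le_psi_zero hg (jj_spec hg hne)
  have h2 := jj_pos hg hne
  linarith

noncomputable def sec (g G : J → ℝ) : ℝ := max (psi 0 G) (psi 0 g + 2 * |G (jj g) - g (jj g)|)

noncomputable def thi (g G : J → ℝ) : ℝ := max 0 (psi g (-G) + |G (jj g) - g (jj g)|)

noncomputable def V (g G : J → ℝ) : ℝ := Q G + q g G + sec g G + thi g G

lemma thi_nonneg (g G : J → ℝ) : 0 ≤ thi g G := le_max_left _ _

lemma psi_le_sec (g G : J → ℝ) : psi 0 G ≤ sec g G := le_max_left _ _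

lemma V_ge (g G : J → ℝ) : Q G + psi 0 G + q g G ≤ V g G := by
  unfold V
  have := thi_nonneg g G
  have := psi_le_sec g G
  linarith

lemma V_self (g : J → ℝ) : V g g = Q g + psi 0 g := by
  unfold V sec thi
  have h := psi_neg_self_le g
  rw [q_self, sub_self, abs_zero, mul_zero, add_zero, add_zero, max_self, add_zero,
    max_eq_left h, add_zero]

lemma V_le {g G : J → ℝ} (hg : ∀ j, |g j| ≤ 1) (hG : ∀ j, |G j| ≤ 1) : V g G ≤ 12 := by
  unfold V
  have h1 := Q_le_one hG
  have h2 := q_le_two hg hG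
  have h3 := abs_sub_le_two (hG (jj g)) (hg (jj g))
  have h4 : sec g G ≤ 5 := by
    unfold sec
    apply max_le
    · have := psi_zero_le hG; linarith
    · have := psi_zero_le hg; linarith
  have h5 : thi g G ≤ 4 := by
    unfold thi
    apply max_le
    · norm_num
    · have := psi_le hg (neg_cube hG); linarith
  linarith

lemma le_V {g G : J → ℝ} (hG : ∀ j, |G j| ≤ 1) : -2 ≤ V g G := by
  have h1 := V_ge g G
  have h2 := Q_nonneg G
  have h3 := q_nonneg g G
  have h4 := le_psi_zero hG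
  linarith

lemma abs_max_sub_max {a b c d e : ℝ} (h1 : |a - c| ≤ e) (h2 : |b - d| ≤ e) :
    |max a b - max c d| ≤ e := by
  have := abs_max_sub_max_le_max a b c d
  exact this.trans (max_le h1 h2)

/-- variation of `V` -/
lemma V_diff {g G G' w : J → ℝ} {d : ℝ} (hg : ∀ j, |g j| ≤ 1) (hG : ∀ j, |G j| ≤ 1)
    (hG' : ∀ j, |G' j| ≤ 1)
    (hw : ∀ j, |G j - G' j| ≤ w j) (hs : Summable (fun j => eps j * w j))
    (h2 : |sec g G - sec g G'| ≤ d) (h3 : |thi g G - thi g G'| ≤ d) :
    |V g G - V g G'| ≤ 3 * (∑' j, eps j * w j) + 2 * d := by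
  have a1 := abs_le.mp (Q_diff hG hG' hw hs)
  have a2 := abs_le.mp (q_diff hg hG hG' hw hs)
  have a3 := abs_le.mp h2
  have a4 := abs_le.mp h3
  unfold V
  rw [abs_le]
  constructor <;> linarith [a1.1, a1.2, a2.1, a2.2, a3.1, a3.2, a4.1, a4.2]

lemma V_lip {g G G' : J → ℝ} {d : ℝ} (hg : ∀ j, |g j| ≤ 1) (hG : ∀ j, |G j| ≤ 1)
    (hG' : ∀ j, |G' j| ≤ 1) (hd : ∀ j, |G j - G' j| ≤ d) :
    |V g G - V g G'| ≤ 7 * d := by
  have hd0 : 0 ≤ d := (abs_nonneg _).trans (hd (0, ∅))
  have hs : Summable (fun j => eps j * d) := eps_summable.mul_right d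
  have hsum : ∑' j, eps j * d ≤ d := tsum_bdd (fun _ => hd0) (fun _ => le_rfl)
  have habs : abs (|G (jj g) - g (jj g)| - |G' (jj g) - g (jj g)|) ≤ d := by
    have h1 := abs_abs_sub_abs_le_abs_sub (G (jj g) - g (jj g)) (G' (jj g) - g (jj g))
    have h2 : G (jj g) - g (jj g) - (G' (jj g) - g (jj g)) = G (jj g) - G' (jj g) := by ring
    rw [h2] at h1
    exact h1.trans (hd _)
  have h2 : |sec g G - sec g G'| ≤ 2 * d := by
    unfold sec
    apply abs_max_sub_max
    · have := psi_lip_abs zero_cube hG hG' hd; linarith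
    · rw [abs_le] at habs ⊢
      constructor <;> linarith [habs.1, habs.2]
  have h3 : |thi g G - thi g G'| ≤ 2 * d := by
    unfold thi
    apply abs_max_sub_max
    · rw [sub_self, abs_zero]; linarith
    · have h4 := psi_lip_abs hg (neg_cube hG) (neg_cube hG') (d := d) (fun j => by
        have : (-G) j - (-G') j = -(G j - G' j) := by simp only [Pi.neg_apply]; ring
        rw [this, abs_neg]; exact hd j)
      rw [abs_le] at habs h4 ⊢
      constructor <;> linarith [habs.1, habs.2, h4.1, h4.2]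
  have h5 := V_diff hg hG hG' hd hs h2 h3
  linarith

lemma max_mid {a b c d x y : ℝ} (h1 : x ≤ (a + c) / 2) (h2 : y ≤ (b + d) / 2) :
    max x y ≤ (max a b + max c d) / 2 := by
  apply max_le
  · have := le_max_left a b; have := le_max_left c d; linarith
  · have := le_max_right a b; have := le_max_right c d; linarith

lemma V_mid {g G G' : J → ℝ} (hg : ∀ j, |g j| ≤ 1) (hG : ∀ j, |G j| ≤ 1)
    (hG' : ∀ j, |G' j| ≤ 1) : V g (mid G G') ≤ (V g G + V g G') / 2 := by
  have h0 : 0 ≤ ∑' j, eps j * (G j - G' j) ^ 2 :=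
    tsum_nonneg fun j => mul_nonneg (eps_pos j).le (sq_nonneg _)
  have h1 := Q_mid hG hG'
  have h2 := q_mid hg hG hG'
  have habs : |mid G G' (jj g) - g (jj g)|
      ≤ (|G (jj g) - g (jj g)| + |G' (jj g) - g (jj g)|) / 2 := abs_mid _ _ _
  have h3 : sec g (mid G G') ≤ (sec g G + sec g G') / 2 := by
    unfold sec
    apply max_mid (psi_mid zero_cube hG hG')
    linarith
  have h4 : thi g (mid G G') ≤ (thi g G + thi g G') / 2 := by
    unfold thi
    apply max_mid
    · norm_num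
    · have := psi_mid hg (neg_cube hG) (neg_cube hG')
      rw [← neg_mid] at this
      linarith
  unfold V
  linarith

lemma V_lsc {g : J → ℝ} (hg : ∀ j, |g j| ≤ 1) : LowerSemicontinuous (fun G : Cube => V g G.1) := by
  have hc : Continuous (fun G : Cube => |G.1 (jj g) - g (jj g)|) :=
    (((continuous_apply (jj g)).comp continuous_subtype_val).sub continuous_const).abs
  have h2 : LowerSemicontinuous (fun G : Cube => sec g G.1) := by
    unfold sec
    exact (psi_lsc zero_cube).sup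
      (continuous_const.add (continuous_const.mul hc)).lowerSemicontinuous
  have h3 : LowerSemicontinuous (fun G : Cube => thi g G.1) := by
    unfold thi
    exact (continuous_const.lowerSemicontinuous).sup
      ((psi_lsc_neg hg).add hc.lowerSemicontinuous)
  unfold V
  exact ((Q_lsc.add (q_lsc hg)).add h2).add h3

lemma V_lsc_neg {g : J → ℝ} (hg : ∀ j, |g j| ≤ 1) :
    LowerSemicontinuous (fun G : Cube => V g (-G.1)) := by
  have hcont : Continuous (fun G : Cube => (⟨-G.1, neg_cube G.2⟩ : Cube)) :=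
    Continuous.subtype_mk continuous_subtype_val.neg _
  exact LowerSemicontinuous.comp (V_lsc hg) hcont

end Pool.Agent.MP17c3bf
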